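import Pool.Agent.H48.SymDP.Defs

/-!
# The del Pezzo surface `X₀`
-/

open MvPolynomial

namespace Pool.Agent.H64.SymDP

open Pool.Agent.H48.SymDP

theorem q₀_isHomogeneous (i : Fin 2) : (q₀ i).IsHomogeneous 2 := by
  have hX : ∀ j : Fin 5, (X j : MvPolynomial (Fin 5) ℚ).IsHomogeneous 1 :=
    fun j => isHomogeneous_X ℚ j
  have hXX : ∀ j k : Fin 5, (X j * X k : MvPolynomial (Fin 5) ℚ).IsHomogeneous 2 :=
    fun j k => (hX j).mul (hX k)
  have hc : ∀ (n : ℚ) (f : MvPolynomial (Fin 5) ℚ), f.IsHomogeneous 2 →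
      (C n * f).IsHomogeneous 2 := by
    intro n f hf
    have := (isHomogeneous_C (Fin 5) n).mul hf
    rwa [zero_add] at this
  fin_cases i
  · show (X 1 * X 2 - X 3 * X 0 : MvPolynomial (Fin 5) ℚ).IsHomogeneous 2
    exact (hXX 1 2).sub (hXX 3 0)
  · show (3 * X 4 ^ 2 + X 3 ^ 2 - 6 * X 3 * X 0 - 4 * (X 1 + X 2) * X 0 + 21 * X 0 ^ 2 :
      MvPolynomial (Fin 5) ℚ).IsHomogeneous 2
    have e : (3 * X 4 ^ 2 + X 3 ^ 2 - 6 * X 3 * X 0 - 4 * (X 1 + X 2) * X 0 + 21 * X 0 ^ 2 :
      MvPolynomial (Fin 5) ℚ) = C 3 * (X 4 * X 4) + X 3 * X 3 - C 6 * (X 3 * X 0)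
        - C 4 * (X 1 * X 0 + X 2 * X 0) + C 21 * (X 0 * X 0) := by
      simp only [map_ofNat]
      ring
    rw [e]
    exact (((((hc 3 _ (hXX 4 4)).add (hXX 3 3)).sub (hc 6 _ (hXX 3 0))).sub
      (hc 4 _ ((hXX 1 0).add (hXX 2 0)))).add (hc 21 _ (hXX 0 0)))

theorem pderiv_ofNat' (j : Fin 5) (n : ℕ) [n.AtLeastTwo] :
    pderiv j (ofNat(n) : MvPolynomial (Fin 5) ℚ) = 0 := by
  have : (ofNat(n) : MvPolynomial (Fin 5) ℚ) = C (OfNat.ofNat n) := (map_ofNat _ n).symm
  rw [this, pderiv_C]

theorem smooth_q0 (p : Fin 5 → AlgebraicClosure ℚ) (hp : p ≠ 0)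
    (h : ∀ i, aeval p (q₀ i) = 0) :
    LinearIndependent (AlgebraicClosure ℚ)
      (fun (i : Fin 2) (j : Fin 5) => aeval p (pderiv j (q₀ i))) := by
  rw [Fintype.linearIndependent_iff]
  intro g hg
  have h0 := h 0
  have h1 := h 1
  have g0 := congrFun hg 0
  have g1 := congrFun hg 1
  have g2 := congrFun hg 2
  have g3 := congrFun hg 3
  have g4 := congrFun hg 4
  clear hg h
  simp [q₀, Fin.sum_univ_two, pderiv_X, Pi.single_apply, Derivation.leibniz,
    Derivation.leibniz_pow, pderiv_ofNat'] at h0 h1 g0 g1 g2 g3 g4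
  have hp' : ¬ (p 0 = 0 ∧ p 1 = 0 ∧ p 2 = 0 ∧ p 3 = 0 ∧ p 4 = 0) := by
    rintro ⟨a0, a1, a2, a3, a4⟩
    apply hp
    funext j
    fin_cases j <;> assumption
  generalize p 0 = x0 at *
  generalize p 1 = x1 at *
  generalize p 2 = x2 at *
  generalize p 3 = x3 at *
  generalize p 4 = x4 at *
  suffices hb : g 1 = 0 ∧ g 0 = 0 by
    intro i
    fin_cases i
    · exact hb.2
    · exact hb.1
  generalize g 0 = a at *
  generalize g 1 = b at *
  by_cases hb : b = 0
  · subst hb
    refine ⟨rfl, ?_⟩
    by_contra ha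
    have e3 : x3 = 0 := by
      have : a * x3 = 0 := by linear_combination (-1) * g0
      exact (mul_eq_zero.1 this).resolve_left ha
    have e2 : x2 = 0 := by
      have : a * x2 = 0 := by linear_combination g1
      exact (mul_eq_zero.1 this).resolve_left ha
    have e1 : x1 = 0 := by
      have : a * x1 = 0 := by linear_combination g2
      exact (mul_eq_zero.1 this).resolve_left ha
    have e0 : x0 = 0 := by
      have : a * x0 = 0 := by linear_combination (-1) * g3
      exact (mul_eq_zero.1 this).resolve_left ha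
    subst e0 e1 e2 e3
    have e4 : x4 = 0 := by
      have : (3 : AlgebraicClosure ℚ) * x4 ^ 2 = 0 := by linear_combination h1
      simpa using this
    exact hp' ⟨rfl, rfl, rfl, rfl, e4⟩
  · exfalso
    have g4' : x4 = 0 := g4.resolve_left hb
    obtain ⟨m, rfl⟩ : ∃ m, a = m * b := ⟨a / b, by rw [div_mul_cancel₀ _ hb]⟩
    have f2 : m * x2 = 4 * x0 := by
      apply mul_left_cancel₀ hb
      linear_combination g1
    have f1 : m * x1 = 4 * x0 := by
      apply mul_left_cancel₀ hb
      linear_combination g2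
    have f3 : 2 * x3 = (m + 6) * x0 := by
      apply mul_left_cancel₀ hb
      linear_combination g3
    have f0 : (m + 6) * x3 + 4 * (x1 + x2) = 42 * x0 := by
      apply mul_left_cancel₀ hb
      linear_combination (-1) * g0
    by_cases hx : x0 = 0
    · subst hx
      have e3 : x3 = 0 := by
        have : (2 : AlgebraicClosure ℚ) * x3 = 0 := by linear_combination f3
        simpa using this
      by_cases hm : m = 0
      · subst hm
        subst e3
        have e12 : x2 = - x1 := by
          have : (4 : AlgebraicClosure ℚ) * (x1 + x2) = 0 := by linear_combination f0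
          have h4 : x1 + x2 = 0 := by simpa using this
          linear_combination h4
        have e1 : x1 = 0 := by
          have : x1 ^ 2 = 0 := by
            rw [e12] at h0
            linear_combination (-1) * h0
          simpa using this
        subst e1
        exact hp' ⟨rfl, rfl, by simpa using e12, rfl, g4'⟩
      · have e2 : x2 = 0 := by
          have : m * x2 = 0 := by linear_combination f2
          exact (mul_eq_zero.1 this).resolve_left hm
        have e1 : x1 = 0 := by
          have : m * x1 = 0 := by linear_combination f1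
          exact (mul_eq_zero.1 this).resolve_left hm
        exact hp' ⟨rfl, e1, e2, e3, g4'⟩
    · have k1 : m ^ 2 * (m + 6) = 32 := by
        apply mul_right_cancel₀ (pow_ne_zero 2 hx)
        linear_combination (-2 * m ^ 2) * h0 + (2 * m * x2) * f1 + (8 * x0) * f2
          - (m ^ 2 * x0) * f3
      have k2 : m * (m + 6) ^ 2 + 64 = 84 * m := by
        apply mul_right_cancel₀ hx
        linear_combination (2 * m) * f0 - 8 * f1 - 8 * f2 - (m * (m + 6)) * f3
      have k3 : (m - 2) * (m + 4) ^ 2 = 0 := by linear_combination k1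
      rcases mul_eq_zero.1 k3 with h3 | h3
      · have hm : m = 2 := by linear_combination h3
        subst hm
        norm_num at k2
      · have hm : m = -4 := by
          have := pow_eq_zero_iff (two_ne_zero) |>.1 h3
          linear_combination this
        subst hm
        norm_num at k2

/-- the surface `X₀` -/
noncomputable def X₀ : DelPezzoFour where
  q := q₀
  isHomogeneous := q₀_isHomogeneous
  smooth := smooth_q0

end Pool.Agent.H64.SymDP
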