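import Pool.Agent.H64.SymDP.Trdeg
import Pool.Agent.H64.SymDP.Smooth

/-!
# The function field of `X₀` is generated by a point of the cubic surface
-/

open MvPolynomial

namespace Pool.Agent.H64.SymDP

open Pool.Agent.H48.SymDP

attribute [-instance] DivisionRing.toRatAlgebra

variable {K : Type} [Field K] [Algebra ℚ K]

theorem ratios_false (P : X₀.PowerField 1 K) {c : Fin 5} (hc : P.pt 0 c ≠ 0) (ρ : K)
    (h : ∀ a, IsAlgebraic (IntermediateField.adjoin ℚ {ρ}) (P.pt 0 a / P.pt 0 c)) : False := by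
  have h1 : Algebra.trdeg ℚ K ≤ Cardinal.mk ({ρ} : Set K) := by
    refine trdeg_le P.adjoin_eq_top ?_
    rintro t ⟨i, a, b, rfl⟩
    have hi : i = 0 := Subsingleton.elim _ _
    subst hi
    have e : P.pt 0 a / P.pt 0 b = (P.pt 0 a / P.pt 0 c) * (P.pt 0 b / P.pt 0 c)⁻¹ := by
      by_cases hb : P.pt 0 b = 0
      · rw [hb]
        simp
      · field_simp
    rw [e]
    exact (h a).mul (h b).inv
  rw [P.trdeg_eq, Cardinal.mk_singleton] at h1
  have : (2 * 1 : ℕ) ≤ 1 := by exact_mod_cast h1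
  omega

theorem pt_eqs (P : X₀.PowerField 1 K) :
    P.pt 0 1 * P.pt 0 2 - P.pt 0 3 * P.pt 0 0 = 0 ∧
    3 * P.pt 0 4 ^ 2 + P.pt 0 3 ^ 2 - 6 * P.pt 0 3 * P.pt 0 0
      - 4 * (P.pt 0 1 + P.pt 0 2) * P.pt 0 0 + 21 * P.pt 0 0 ^ 2 = 0 := by
  have h0 : aeval (P.pt 0) (X 1 * X 2 - X 3 * X 0 : MvPolynomial (Fin 5) ℚ) = 0 := P.pt_mem 0 0
  have h1 : aeval (P.pt 0) (3 * X 4 ^ 2 + X 3 ^ 2 - 6 * X 3 * X 0 - 4 * (X 1 + X 2) * X 0
      + 21 * X 0 ^ 2 : MvPolynomial (Fin 5) ℚ) = 0 := P.pt_mem 0 1
  simp only [map_sub, map_add, map_mul, map_pow, aeval_X, map_ofNat] at h0 h1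
  exact ⟨h0, h1⟩

theorem exists_xyz (P : X₀.PowerField 1 K) :
    ∃ x y z : K, y ^ 2 + 3 * z ^ 2 = x ^ 3 + 2 ∧ IntermediateField.adjoin ℚ {x, y, z} = ⊤ := by
  have hcz : CharZero K := charZero_of_injective_algebraMap (algebraMap ℚ K).injective
  obtain ⟨h0, h1⟩ := pt_eqs P
  have hne := P.pt_ne_zero 0
  have hF := fun c hc ρ h => ratios_false P (c := c) hc ρ h
  have htop := P.adjoin_eq_top
  have h00 : P.pt 0 0 ≠ 0 := by
    intro hp0
    rw [hp0] at h0 h1
    have h12 : P.pt 0 1 = 0 ∨ P.pt 0 2 = 0 := by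
      apply mul_eq_zero.1
      linear_combination h0
    have h43 : P.pt 0 3 ^ 2 = -3 * P.pt 0 4 ^ 2 := by linear_combination h1
    by_cases hp4 : P.pt 0 4 = 0
    · rw [hp4] at h43
      have hp3 : P.pt 0 3 = 0 := by
        have : P.pt 0 3 ^ 2 = 0 := by linear_combination h43
        exact pow_eq_zero_iff (two_ne_zero) |>.1 this
      rcases h12 with hp | hp
      · have hc : P.pt 0 2 ≠ 0 := by
          intro h
          apply hne
          funext a
          fin_cases a <;> assumption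
        apply hF 2 hc 0
        intro a
        apply isAlgebraic_of_mem
        fin_cases a
        · show P.pt 0 0 / P.pt 0 2 ∈ _
          rw [hp0, zero_div]; exact zero_mem _
        · show P.pt 0 1 / P.pt 0 2 ∈ _
          rw [hp, zero_div]; exact zero_mem _
        · show P.pt 0 2 / P.pt 0 2 ∈ _
          rw [div_self hc]; exact one_mem _
        · show P.pt 0 3 / P.pt 0 2 ∈ _
          rw [hp3, zero_div]; exact zero_mem _
        · show P.pt 0 4 / P.pt 0 2 ∈ _
          rw [hp4, zero_div]; exact zero_mem _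
      · have hc : P.pt 0 1 ≠ 0 := by
          intro h
          apply hne
          funext a
          fin_cases a <;> assumption
        apply hF 1 hc 0
        intro a
        apply isAlgebraic_of_mem
        fin_cases a
        · show P.pt 0 0 / P.pt 0 1 ∈ _
          rw [hp0, zero_div]; exact zero_mem _
        · show P.pt 0 1 / P.pt 0 1 ∈ _
          rw [div_self hc]; exact one_mem _
        · show P.pt 0 2 / P.pt 0 1 ∈ _
          rw [hp, zero_div]; exact zero_mem _
        · show P.pt 0 3 / P.pt 0 1 ∈ _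
          rw [hp3, zero_div]; exact zero_mem _
        · show P.pt 0 4 / P.pt 0 1 ∈ _
          rw [hp4, zero_div]; exact zero_mem _
    · have h34 : ∀ ρ : K, IsAlgebraic (IntermediateField.adjoin ℚ {ρ}) (P.pt 0 3 / P.pt 0 4) := by
        intro ρ
        apply isAlgebraic_of_sq_mem
        have : (P.pt 0 3 / P.pt 0 4) ^ 2 = -3 := by
          rw [div_pow, h43]
          field_simp
        rw [this]
        exact neg_mem (ofNat_mem _ 3)
      rcases h12 with hp | hp
      · apply hF 4 hp4 (P.pt 0 2 / P.pt 0 4)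
        intro a
        fin_cases a
        · apply isAlgebraic_of_mem
          show P.pt 0 0 / P.pt 0 4 ∈ _
          rw [hp0, zero_div]; exact zero_mem _
        · apply isAlgebraic_of_mem
          show P.pt 0 1 / P.pt 0 4 ∈ _
          rw [hp, zero_div]; exact zero_mem _
        · apply isAlgebraic_of_mem
          exact IntermediateField.subset_adjoin _ _ rfl
        · exact h34 _
        · apply isAlgebraic_of_mem
          show P.pt 0 4 / P.pt 0 4 ∈ _
          rw [div_self hp4]; exact one_mem _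
      · apply hF 4 hp4 (P.pt 0 1 / P.pt 0 4)
        intro a
        fin_cases a
        · apply isAlgebraic_of_mem
          show P.pt 0 0 / P.pt 0 4 ∈ _
          rw [hp0, zero_div]; exact zero_mem _
        · apply isAlgebraic_of_mem
          exact IntermediateField.subset_adjoin _ _ rfl
        · apply isAlgebraic_of_mem
          show P.pt 0 2 / P.pt 0 4 ∈ _
          rw [hp, zero_div]; exact zero_mem _
        · exact h34 _
        · apply isAlgebraic_of_mem
          show P.pt 0 4 / P.pt 0 4 ∈ _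
          rw [div_self hp4]; exact one_mem _
  have e3 : P.pt 0 3 / P.pt 0 0 = (P.pt 0 1 / P.pt 0 0) * (P.pt 0 2 / P.pt 0 0) := by
    field_simp
    linear_combination (-1) * h0
  have e4 : 3 * (P.pt 0 4 / P.pt 0 0) ^ 2 + (P.pt 0 3 / P.pt 0 0) ^ 2
      - 6 * (P.pt 0 3 / P.pt 0 0) - 4 * (P.pt 0 1 / P.pt 0 0 + P.pt 0 2 / P.pt 0 0) + 21 = 0 := by
    field_simp
    linear_combination h1
  have h10 : P.pt 0 1 / P.pt 0 0 ≠ 0 := by
    intro hs
    rw [hs, zero_mul] at e3
    rw [e3, hs] at e4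
    apply hF 0 h00 (P.pt 0 4 / P.pt 0 0)
    intro a
    have m4 : P.pt 0 4 / P.pt 0 0 ∈ IntermediateField.adjoin ℚ {P.pt 0 4 / P.pt 0 0} :=
      IntermediateField.subset_adjoin _ _ rfl
    apply isAlgebraic_of_mem
    fin_cases a
    · show P.pt 0 0 / P.pt 0 0 ∈ _
      rw [div_self h00]; exact one_mem _
    · show P.pt 0 1 / P.pt 0 0 ∈ _
      rw [hs]; exact zero_mem _
    · show P.pt 0 2 / P.pt 0 0 ∈ _
      have : P.pt 0 2 / P.pt 0 0 = (3 * (P.pt 0 4 / P.pt 0 0) ^ 2 + 21) / 4 := by
        rw [eq_div_iff (by norm_num)]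
        linear_combination (-1) * e4
      rw [this]
      exact div_mem (add_mem (mul_mem (ofNat_mem _ 3) (pow_mem m4 2)) (ofNat_mem _ 21))
        (ofNat_mem _ 4)
    · show P.pt 0 3 / P.pt 0 0 ∈ _
      rw [e3]; exact zero_mem _
    · exact m4
  generalize hs : P.pt 0 1 / P.pt 0 0 = s at *
  generalize ht : P.pt 0 2 / P.pt 0 0 = t at *
  generalize he : P.pt 0 4 / P.pt 0 0 = e at *
  rw [e3] at e4
  refine ⟨s - 1, 1 + 3 / 2 * s - t / 2 * s ^ 2, s * e / 2, ?_, ?_⟩
  · linear_combination (s ^ 2 / 4) * e4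
  · set S := IntermediateField.adjoin ℚ {s - 1, 1 + 3 / 2 * s - t / 2 * s ^ 2, s * e / 2} with hS
    have n2 : (2 : K) ∈ S := ofNat_mem _ 2
    have n3 : (3 : K) ∈ S := ofNat_mem _ 3
    have m1 : s - 1 ∈ S := IntermediateField.subset_adjoin _ _ (by simp)
    have m2 : 1 + 3 / 2 * s - t / 2 * s ^ 2 ∈ S :=
      IntermediateField.subset_adjoin _ _ (by simp)
    have m3 : s * e / 2 ∈ S := IntermediateField.subset_adjoin _ _ (by simp)
    have ms : s ∈ S := by
      have := S.add_mem m1 S.one_mem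
      rwa [sub_add_cancel] at this
    have mt : t ∈ S := by
      have : t = 2 * (1 + 3 / 2 * s - (1 + 3 / 2 * s - t / 2 * s ^ 2)) / s ^ 2 := by
        field_simp
        ring
      rw [this]
      exact div_mem (mul_mem n2 (sub_mem (add_mem (one_mem _) (mul_mem (div_mem n3 n2) ms)) m2))
        (pow_mem ms 2)
    have me : e ∈ S := by
      have : e = 2 * (s * e / 2) / s := by
        field_simp
      rw [this]
      exact div_mem (mul_mem n2 m3) ms
    have hall : ∀ a, P.pt 0 a / P.pt 0 0 ∈ S := by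
      intro a
      fin_cases a
      · show P.pt 0 0 / P.pt 0 0 ∈ S
        rw [div_self h00]; exact one_mem _
      · show P.pt 0 1 / P.pt 0 0 ∈ S
        rw [hs]; exact ms
      · show P.pt 0 2 / P.pt 0 0 ∈ S
        rw [ht]; exact mt
      · show P.pt 0 3 / P.pt 0 0 ∈ S
        rw [e3]; exact mul_mem ms mt
      · show P.pt 0 4 / P.pt 0 0 ∈ S
        rw [he]; exact me
    rw [eq_top_iff, ← htop, IntermediateField.adjoin_le_iff]
    rintro w ⟨i, a, b, rfl⟩
    have hi : i = 0 := Subsingleton.elim _ _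
    subst hi
    have e' : P.pt 0 a / P.pt 0 b = (P.pt 0 a / P.pt 0 0) / (P.pt 0 b / P.pt 0 0) := by
      by_cases hb : P.pt 0 b = 0
      · rw [hb]
        simp
      · field_simp
    rw [e']
    exact S.div_mem (hall a) (hall b)

end Pool.Agent.H64.SymDP
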