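import Mathlib

/-!
# Values of rational functions at a rational point
-/

namespace Pool.Agent.H64.SymDP

open MvPolynomial

variable {ι : Type} (p : ι → ℚ)

/-- `f` is regular at `p` with value `c` -/
def EvalsTo (f : FractionRing (MvPolynomial ι ℚ)) (c : ℚ) : Prop :=
  ∃ num den : MvPolynomial ι ℚ, eval p den ≠ 0 ∧
    f * algebraMap _ (FractionRing (MvPolynomial ι ℚ)) den = algebraMap _ _ num ∧
    eval p num = c * eval p den

namespace EvalsTo

variable {p} {f g : FractionRing (MvPolynomial ι ℚ)} {a b : ℚ}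

theorem congr (h : EvalsTo p f a) (hab : a = b) : EvalsTo p f b := hab ▸ h

theorem X (i : ι) : EvalsTo p (algebraMap (MvPolynomial ι ℚ) (FractionRing (MvPolynomial ι ℚ))
    (MvPolynomial.X i)) (p i) :=
  ⟨MvPolynomial.X i, 1, by simp, by simp, by simp⟩

theorem const (c : ℚ) : EvalsTo p (algebraMap (MvPolynomial ι ℚ) _ (MvPolynomial.C c)) c :=
  ⟨MvPolynomial.C c, 1, by simp, by simp, by simp⟩

theorem one : EvalsTo p (1 : FractionRing (MvPolynomial ι ℚ)) 1 :=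
  ⟨1, 1, by simp, by simp, by simp⟩

theorem ofNat (n : ℕ) [n.AtLeastTwo] :
    EvalsTo p (OfNat.ofNat n : FractionRing (MvPolynomial ι ℚ)) (OfNat.ofNat n) :=
  ⟨OfNat.ofNat n, 1, by simp, by rw [map_one, mul_one]; exact (map_ofNat _ n).symm, by simp⟩

theorem add (hf : EvalsTo p f a) (hg : EvalsTo p g b) : EvalsTo p (f + g) (a + b) := by
  obtain ⟨n1, d1, h1, h2, h3⟩ := hf
  obtain ⟨n2, d2, k1, k2, k3⟩ := hg
  refine ⟨n1 * d2 + n2 * d1, d1 * d2, ?_, ?_, ?_⟩
  · rw [map_mul]; exact mul_ne_zero h1 k1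
  · simp only [map_mul, map_add]
    rw [← h2, ← k2]
    ring
  · simp only [map_mul, map_add, h3, k3]
    ring

theorem mul (hf : EvalsTo p f a) (hg : EvalsTo p g b) : EvalsTo p (f * g) (a * b) := by
  obtain ⟨n1, d1, h1, h2, h3⟩ := hf
  obtain ⟨n2, d2, k1, k2, k3⟩ := hg
  refine ⟨n1 * n2, d1 * d2, ?_, ?_, ?_⟩
  · rw [map_mul]; exact mul_ne_zero h1 k1
  · simp only [map_mul]
    rw [← h2, ← k2]
    ring
  · simp only [map_mul, h3, k3]
    ring

theorem neg (hf : EvalsTo p f a) : EvalsTo p (-f) (-a) := by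
  obtain ⟨n1, d1, h1, h2, h3⟩ := hf
  refine ⟨-n1, d1, h1, ?_, ?_⟩
  · rw [map_neg, ← h2]
    ring
  · rw [map_neg, h3]
    ring

theorem sub (hf : EvalsTo p f a) (hg : EvalsTo p g b) : EvalsTo p (f - g) (a - b) := by
  rw [sub_eq_add_neg, sub_eq_add_neg]
  exact hf.add hg.neg

theorem pow (hf : EvalsTo p f a) (n : ℕ) : EvalsTo p (f ^ n) (a ^ n) := by
  induction n with
  | zero => simpa using one
  | succ n ih =>
    rw [pow_succ, pow_succ]
    exact ih.mul hf

theorem algebraMap_ne_zero {d : MvPolynomial ι ℚ} (h : eval p d ≠ 0) :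
    algebraMap _ (FractionRing (MvPolynomial ι ℚ)) d ≠ 0 := by
  intro h0
  apply h
  have : d = 0 := by
    apply IsFractionRing.injective (MvPolynomial ι ℚ) (FractionRing (MvPolynomial ι ℚ))
    rw [h0, map_zero]
  rw [this, map_zero]

theorem ne_zero (hf : EvalsTo p f a) (ha : a ≠ 0) : f ≠ 0 := by
  obtain ⟨n1, d1, h1, h2, h3⟩ := hf
  intro h0
  rw [h0, zero_mul] at h2
  have : eval p n1 ≠ 0 := by
    rw [h3]
    exact mul_ne_zero ha h1
  exact algebraMap_ne_zero this h2.symm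

theorem inv (hf : EvalsTo p f a) (ha : a ≠ 0) : EvalsTo p f⁻¹ a⁻¹ := by
  have hf0 := hf.ne_zero ha
  obtain ⟨n1, d1, h1, h2, h3⟩ := hf
  refine ⟨d1, n1, ?_, ?_, ?_⟩
  · rw [h3]
    exact mul_ne_zero ha h1
  · rw [← h2, ← mul_assoc, inv_mul_cancel₀ hf0, one_mul]
  · rw [h3, ← mul_assoc, inv_mul_cancel₀ ha, one_mul]

theorem div (hf : EvalsTo p f a) (hg : EvalsTo p g b) (hb : b ≠ 0) :
    EvalsTo p (f / g) (a / b) := by
  rw [div_eq_mul_inv, div_eq_mul_inv]
  exact hf.mul (hg.inv hb)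

/-- a rational function with a negative value is not a square -/
theorem not_sq (hf : EvalsTo p f a) (ha : a < 0) (g : FractionRing (MvPolynomial ι ℚ)) :
    g ^ 2 ≠ f := by
  obtain ⟨N, E, h1, h2, h3⟩ := hf
  intro hg
  obtain ⟨P, Q, hQ, hPQ⟩ := IsFractionRing.div_surjective (A := MvPolynomial ι ℚ) g
  have hQ0 : algebraMap _ (FractionRing (MvPolynomial ι ℚ)) Q ≠ 0 := by
    have : Q ≠ 0 := nonZeroDivisors.ne_zero hQ
    intro h0
    apply this
    apply IsFractionRing.injective (MvPolynomial ι ℚ) (FractionRing (MvPolynomial ι ℚ))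
    rw [h0, map_zero]
  have key : (P * E) ^ 2 = Q ^ 2 * (N * E) := by
    apply IsFractionRing.injective (MvPolynomial ι ℚ) (FractionRing (MvPolynomial ι ℚ))
    simp only [map_mul, map_pow]
    rw [← h2, ← hg, ← hPQ]
    field_simp
  have hdvd : Q ∣ P * E := by
    have hd : Q ^ 2 ∣ (P * E) ^ 2 := ⟨_, key⟩
    exact (IsIntegrallyClosed.pow_dvd_pow_iff (two_ne_zero)).1 hd
  obtain ⟨S, hS⟩ := hdvd
  rw [hS, mul_pow] at key
  have hQ1 : Q ^ 2 ≠ 0 := pow_ne_zero 2 (nonZeroDivisors.ne_zero hQ)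
  have h4 := mul_left_cancel₀ hQ1 key
  have h5 := congrArg (eval p) h4
  rw [map_pow, map_mul, h3] at h5
  have h6 : 0 ≤ (eval p S) ^ 2 := sq_nonneg _
  have h7 : 0 < (eval p E) ^ 2 := by positivity
  nlinarith

end EvalsTo

end Pool.Agent.H64.SymDP
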