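import Pool.Agent.H64.SymDP.SymExt
import Pool.Agent.H64.SymDP.Eval

/-!
# The explicit parametrization over the field of rational functions in four variables
-/

open MvPolynomial

namespace Pool.Agent.H64.SymDP

open Pool.Agent.H48.SymDP

/-- the field of rational functions in four variables -/
abbrev MM := FractionRing (MvPolynomial (Fin 4) ℚ)

theorem exists_par (pp : Fin 4 → ℚ) (r1 r2 g1 g2 : MM) (E_r1 : EvalsTo pp r1 (-2))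
    (E_r2 : EvalsTo pp r2 1) (E_g1 : EvalsTo pp g1 (-1)) (E_g2 : EvalsTo pp g2 0) :
    ∃ P : Par MM, P.r1 = r1 ∧ P.r2 = r2 ∧ P.g1 = g1 ∧ P.g2 = g2 ∧ P.Good := by
  obtain ⟨n, D_n, E_n⟩ : ∃ w : MM, w = g1 ^ 2+3*g2 ^ 2 ∧ EvalsTo pp w (1) := ⟨_, rfl,
    ((E_g1.pow 2).add ((EvalsTo.ofNat (p := pp) 3).mul (E_g2.pow 2))).congr (by norm_num)⟩
  obtain ⟨k1, D_k1, E_k1⟩ : ∃ w : MM, w = (1/n-2*(r1 ^ 2+3*r2 ^ 2))/2 ∧ EvalsTo pp w (-13 / 2) := ⟨_, rfl,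
    (((EvalsTo.one.div E_n (by norm_num)).sub ((EvalsTo.ofNat (p := pp) 2).mul ((E_r1.pow 2).add ((EvalsTo.ofNat (p := pp) 3).mul (E_r2.pow 2))))).div (EvalsTo.ofNat (p := pp) 2) (by norm_num)).congr (by norm_num)⟩
  obtain ⟨k2, D_k2, E_k2⟩ : ∃ w : MM, w = (-(1/2)-k1*r1)/(3*r2) ∧ EvalsTo pp w (-9 / 2) := ⟨_, rfl,
    ((((EvalsTo.one.div (EvalsTo.ofNat (p := pp) 2) (by norm_num)).neg).sub (E_k1.mul E_r1)).div ((EvalsTo.ofNat (p := pp) 3).mul E_r2) (by norm_num)).congr (by norm_num)⟩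
  obtain ⟨c1, D_c1, E_c1⟩ : ∃ w : MM, w = k1 ^ 3-9*k1*k2 ^ 2+2+4*(r1 ^ 3-9*r1*r2 ^ 2)-6*(k1*r1-3*k2*r2) ∧ EvalsTo pp w (793) := ⟨_, rfl,
    (((((E_k1.pow 3).sub (((EvalsTo.ofNat (p := pp) 9).mul E_k1).mul (E_k2.pow 2))).add (EvalsTo.ofNat (p := pp) 2)).add ((EvalsTo.ofNat (p := pp) 4).mul ((E_r1.pow 3).sub (((EvalsTo.ofNat (p := pp) 9).mul E_r1).mul (E_r2.pow 2))))).sub ((EvalsTo.ofNat (p := pp) 6).mul ((E_k1.mul E_r1).sub (((EvalsTo.ofNat (p := pp) 3).mul E_k2).mul E_r2)))).congr (by norm_num)⟩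
  obtain ⟨c2, D_c2, E_c2⟩ : ∃ w : MM, w = 3*k1 ^ 2*k2-3*k2 ^ 3+4*(3*r1 ^ 2*r2-3*r2 ^ 3)-6*(k1*r2+k2*r1) ∧ EvalsTo pp w (-276) := ⟨_, rfl,
    ((((((EvalsTo.ofNat (p := pp) 3).mul (E_k1.pow 2)).mul E_k2).sub ((EvalsTo.ofNat (p := pp) 3).mul (E_k2.pow 3))).add ((EvalsTo.ofNat (p := pp) 4).mul ((((EvalsTo.ofNat (p := pp) 3).mul (E_r1.pow 2)).mul E_r2).sub ((EvalsTo.ofNat (p := pp) 3).mul (E_r2.pow 3))))).sub ((EvalsTo.ofNat (p := pp) 6).mul ((E_k1.mul E_r2).add (E_k2.mul E_r1)))).congr (by norm_num)⟩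
  obtain ⟨x, D_x, E_x⟩ : ∃ w : MM, w = n*(k1 ^ 2+3*k2 ^ 2+4*r1) ∧ EvalsTo pp w (95) := ⟨_, rfl,
    (E_n.mul (((E_k1.pow 2).add ((EvalsTo.ofNat (p := pp) 3).mul (E_k2.pow 2))).add ((EvalsTo.ofNat (p := pp) 4).mul E_r1))).congr (by norm_num)⟩
  obtain ⟨y, D_y, E_y⟩ : ∃ w : MM, w = n*(g1*c1-3*g2*c2) ∧ EvalsTo pp w (-793) := ⟨_, rfl,
    (E_n.mul ((E_g1.mul E_c1).sub (((EvalsTo.ofNat (p := pp) 3).mul E_g2).mul E_c2))).congr (by norm_num)⟩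
  obtain ⟨z, D_z, E_z⟩ : ∃ w : MM, w = n*(g1*c2+g2*c1) ∧ EvalsTo pp w (276) := ⟨_, rfl,
    (E_n.mul ((E_g1.mul E_c2).add (E_g2.mul E_c1))).congr (by norm_num)⟩
  obtain ⟨l0, D_l0, E_l0⟩ : ∃ w : MM, w = n*(k1 ^ 2+3*k2 ^ 2-2*(r1+3*r2)) ∧ EvalsTo pp w (101) := ⟨_, rfl,
    (E_n.mul (((E_k1.pow 2).add ((EvalsTo.ofNat (p := pp) 3).mul (E_k2.pow 2))).sub ((EvalsTo.ofNat (p := pp) 2).mul (E_r1.add ((EvalsTo.ofNat (p := pp) 3).mul E_r2))))).congr (by norm_num)⟩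
  obtain ⟨l1, D_l1, E_l1⟩ : ∃ w : MM, w = n*(-k1+3*k2+2*(r1 ^ 2+3*r2 ^ 2)) ∧ EvalsTo pp w (7) := ⟨_, rfl,
    (E_n.mul (((E_k1.neg).add ((EvalsTo.ofNat (p := pp) 3).mul E_k2)).add ((EvalsTo.ofNat (p := pp) 2).mul ((E_r1.pow 2).add ((EvalsTo.ofNat (p := pp) 3).mul (E_r2.pow 2)))))).congr (by norm_num)⟩
  obtain ⟨l2, D_l2, E_l2⟩ : ∃ w : MM, w = n*(1-(k1*r1+3*k2*r2)-3*(k2*r1-k1*r2)) ∧ EvalsTo pp w (-45) := ⟨_, rfl,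
    (E_n.mul ((EvalsTo.one.sub ((E_k1.mul E_r1).add (((EvalsTo.ofNat (p := pp) 3).mul E_k2).mul E_r2))).sub ((EvalsTo.ofNat (p := pp) 3).mul ((E_k2.mul E_r1).sub (E_k1.mul E_r2))))).congr (by norm_num)⟩
  obtain ⟨m0, D_m0, E_m0⟩ : ∃ w : MM, w = (l0*x ^ 2+2*(l1-l2*x))/(x ^ 3+2) ∧ EvalsTo pp w (920089 / 857377) := ⟨_, rfl,
    (((E_l0.mul (E_x.pow 2)).add ((EvalsTo.ofNat (p := pp) 2).mul (E_l1.sub (E_l2.mul E_x)))).div ((E_x.pow 3).add (EvalsTo.ofNat (p := pp) 2)) (by norm_num)).congr (by norm_num)⟩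
  obtain ⟨m1, D_m1, E_m1⟩ : ∃ w : MM, w = (-l0*x+l1*x ^ 2+2*l2)/(x ^ 3+2) ∧ EvalsTo pp w (53490 / 857377) := ⟨_, rfl,
    (((((E_l0.neg).mul E_x).add (E_l1.mul (E_x.pow 2))).add ((EvalsTo.ofNat (p := pp) 2).mul E_l2)).div ((E_x.pow 3).add (EvalsTo.ofNat (p := pp) 2)) (by norm_num)).congr (by norm_num)⟩
  obtain ⟨m2, D_m2, E_m2⟩ : ∃ w : MM, w = (l0-l1*x+l2*x ^ 2)/(x ^ 3+2) ∧ EvalsTo pp w (-406689 / 857377) := ⟨_, rfl,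
    (((E_l0.sub (E_l1.mul E_x)).add (E_l2.mul (E_x.pow 2))).div ((E_x.pow 3).add (EvalsTo.ofNat (p := pp) 2)) (by norm_num)).congr (by norm_num)⟩
  obtain ⟨e0, D_e0, E_e0⟩ : ∃ w : MM, w = m0+(m0 ^ 2-2*m1*m2)-2 ∧ EvalsTo pp w (243468 / 857377) := ⟨_, rfl,
    ((E_m0.add ((E_m0.pow 2).sub (((EvalsTo.ofNat (p := pp) 2).mul E_m1).mul E_m2))).sub (EvalsTo.ofNat (p := pp) 2)).congr (by norm_num)⟩
  obtain ⟨e1, D_e1, E_e1⟩ : ∃ w : MM, w = m1+(2*m2 ^ 2-m0*m1) ∧ EvalsTo pp w (381906 / 857377) := ⟨_, rfl,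
    (E_m1.add (((EvalsTo.ofNat (p := pp) 2).mul (E_m2.pow 2)).sub (E_m0.mul E_m1))).congr (by norm_num)⟩
  obtain ⟨e2, D_e2, E_e2⟩ : ∃ w : MM, w = m2+(m1 ^ 2-m0*m2) ∧ EvalsTo pp w (33084 / 857377) := ⟨_, rfl,
    (E_m2.add ((E_m1.pow 2).sub (E_m0.mul E_m2))).congr (by norm_num)⟩
  obtain ⟨h, D_h, E_h⟩ : ∃ w : MM, w = 3*(m0-(m0 ^ 2-2*m1*m2)) ∧ EvalsTo pp w (-354132 / 857377) := ⟨_, rfl,
    ((EvalsTo.ofNat (p := pp) 3).mul (E_m0.sub ((E_m0.pow 2).sub (((EvalsTo.ofNat (p := pp) 2).mul E_m1).mul E_m2)))).congr (by norm_num)⟩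
  obtain ⟨u, D_u, E_u⟩ : ∃ w : MM, w = e0/e2 ∧ EvalsTo pp w (6763 / 919) := ⟨_, rfl,
    (E_e0.div E_e2 (by norm_num)).congr (by norm_num)⟩
  obtain ⟨v, D_v, E_v⟩ : ∃ w : MM, w = h/e2 ∧ EvalsTo pp w (-9837 / 919) := ⟨_, rfl,
    (E_h.div E_e2 (by norm_num)).congr (by norm_num)⟩
  have E_hx3 : EvalsTo pp (x ^ 3+2) (857377) :=
    ((E_x.pow 3).add (EvalsTo.ofNat (p := pp) 2)).congr (by norm_num)
  have E_hx1 : EvalsTo pp (x+1) (96) :=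
    (E_x.add EvalsTo.one).congr (by norm_num)
  have E_dd : EvalsTo pp (4*x ^ 2*l2 ^ 2 - 8*x*l0*l2 ^ 2 + 8*x*l1 ^ 2*l2 - 4*x*l1*l2 - 4*x*l2 + 4*l0 ^ 2*l2 ^ 2 - 8*l0*l1 ^ 2*l2 + 4*l0*l1*l2 + 4*l0*l2 + 4*l1 ^ 4 - 4*l1 ^ 3 - 4*l1 + 4) (397008) :=
    (((((((((((((((EvalsTo.ofNat (p := pp) 4).mul (E_x.pow 2)).mul (E_l2.pow 2)).sub ((((EvalsTo.ofNat (p := pp) 8).mul E_x).mul E_l0).mul (E_l2.pow 2))).add ((((EvalsTo.ofNat (p := pp) 8).mul E_x).mul (E_l1.pow 2)).mul E_l2)).sub ((((EvalsTo.ofNat (p := pp) 4).mul E_x).mul E_l1).mul E_l2)).sub (((EvalsTo.ofNat (p := pp) 4).mul E_x).mul E_l2)).add (((EvalsTo.ofNat (p := pp) 4).mul (E_l0.pow 2)).mul (E_l2.pow 2))).sub ((((EvalsTo.ofNat (p := pp) 8).mul E_l0).mul (E_l1.pow 2)).mul E_l2)).add ((((EvalsTo.ofNat (p := pp) 4).mul E_l0).mul E_l1).mul E_l2)).add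 (((EvalsTo.ofNat (p := pp) 4).mul E_l0).mul E_l2)).add ((EvalsTo.ofNat (p := pp) 4).mul (E_l1.pow 4))).sub ((EvalsTo.ofNat (p := pp) 4).mul (E_l1.pow 3))).sub ((EvalsTo.ofNat (p := pp) 4).mul E_l1)).add (EvalsTo.ofNat (p := pp) 4)).congr (by norm_num)
  have E_D : EvalsTo pp (u ^ 4 + 6*u ^ 2*v ^ 2 + 9*v ^ 4 - 6*x*(u ^ 2 + 3*v ^ 2) - 3*x ^ 2 + 8*y*u + 24*z*v) (-152033878937729059 / 713283282721) :=
    (((((((E_u.pow 4).add (((EvalsTo.ofNat (p := pp) 6).mul (E_u.pow 2)).mul (E_v.pow 2))).add ((EvalsTo.ofNat (p := pp) 9).mul (E_v.pow 4))).sub (((EvalsTo.ofNat (p := pp) 6).mul E_x).mul ((E_u.pow 2).add ((EvalsTo.ofNat (p := pp) 3).mul (E_v.pow 2))))).sub ((EvalsTo.ofNat (p := pp) 3).mul (E_x.pow 2))).add (((EvalsTo.ofNat (p := pp) 8).mul E_y).mul E_u)).add (((EvalsTo.ofNat (p := pp) 24).mul E_z).mul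 E_v)).congr (by norm_num)
  have hn0 : n ≠ 0 := E_n.ne_zero (by norm_num)
  have hr20 : r2 ≠ 0 := E_r2.ne_zero (by norm_num)
  have hx30 : x ^ 3 + 2 ≠ 0 := E_hx3.ne_zero (by norm_num)
  have hx10 : x + 1 ≠ 0 := E_hx1.ne_zero (by norm_num)
  have he20 : e2 ≠ 0 := E_e2.ne_zero (by norm_num)
  have hh0 : h ≠ 0 := E_h.ne_zero (by norm_num)
  have hdd0 := E_dd.ne_zero (by norm_num)
  have hD0 := E_D.not_sq (by norm_num)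
  have h20 : (2 : MM) ≠ 0 := two_ne_zero
  have h30 : (3 : MM) ≠ 0 := three_ne_zero
  refine ⟨⟨r1, r2, g1, g2, k1, k2, n, c1, c2, x, y, z, l0, l1, l2, m0, m1, m2, e0, e1, e2, h,
    u, v, D_n, ?_, ?_, D_c1, D_c2, D_x, D_y, D_z, D_l0, D_l1, D_l2, ?_, ?_, ?_, D_e0, D_e1, D_e2,
    D_h, ?_, ?_⟩, rfl, rfl, rfl, rfl, ⟨hx30, hx10, he20, hh0, hdd0, hD0⟩⟩
  · rw [D_k1]
    field_simp
    ring
  · rw [D_k2]
    field_simp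
    ring
  · rw [D_m0, D_m2]
    field_simp
    ring
  · rw [D_m1, D_m0]
    field_simp
    ring
  · rw [D_m2, D_m1]
    field_simp
    ring
  · rw [D_u, div_mul_cancel₀ _ he20]
  · rw [D_v, div_mul_cancel₀ _ he20]

end Pool.Agent.H64.SymDP
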