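import Mathlib

/-!
# The explicit parametrization: field-theoretic identities
-/

namespace Pool.Agent.H64.SymDP

/-- Elements of a field satisfying the relations of the explicit parametrization. -/
structure Par (K : Type*) [Field K] where
  (r1 r2 g1 g2 k1 k2 n c1 c2 x y z l0 l1 l2 m0 m1 m2 e0 e1 e2 h u v : K)
  hn : n = g1 ^ 2 + 3 * g2 ^ 2
  hS : n * (2 * k1 + 2 * (r1 ^ 2 + 3 * r2 ^ 2)) = 1
  hH : 2 * (k1 * r1 + 3 * k2 * r2) + 1 = 0
  hc1 : c1 = k1 ^ 3 - 9 * k1 * k2 ^ 2 + 2 + 4 * (r1 ^ 3 - 9 * r1 * r2 ^ 2)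
    - 6 * (k1 * r1 - 3 * k2 * r2)
  hc2 : c2 = 3 * k1 ^ 2 * k2 - 3 * k2 ^ 3 + 4 * (3 * r1 ^ 2 * r2 - 3 * r2 ^ 3)
    - 6 * (k1 * r2 + k2 * r1)
  hx : x = n * (k1 ^ 2 + 3 * k2 ^ 2 + 4 * r1)
  hy : y = n * (g1 * c1 - 3 * g2 * c2)
  hz : z = n * (g1 * c2 + g2 * c1)
  hl0 : l0 = n * (k1 ^ 2 + 3 * k2 ^ 2 - 2 * (r1 + 3 * r2))
  hl1 : l1 = n * (-k1 + 3 * k2 + 2 * (r1 ^ 2 + 3 * r2 ^ 2))
  hl2 : l2 = n * (1 - (k1 * r1 + 3 * k2 * r2) - 3 * (k2 * r1 - k1 * r2))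
  hm0 : l0 = m0 * x + 2 * m2
  hm1 : l1 = m1 * x + m0
  hm2 : l2 = m2 * x + m1
  he0 : e0 = m0 + (m0 ^ 2 - 2 * m1 * m2) - 2
  he1 : e1 = m1 + (2 * m2 ^ 2 - m0 * m1)
  he2 : e2 = m2 + (m1 ^ 2 - m0 * m2)
  hh : h = 3 * (m0 - (m0 ^ 2 - 2 * m1 * m2))
  hu : u * e2 = e0
  hv : v * e2 = h

namespace Par

/-- transport of the data along a ring homomorphism -/
def map {K L : Type*} [Field K] [Field L] (P : Par K) (f : K →+* L) : Par L where
  r1 := f P.r1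
  r2 := f P.r2
  g1 := f P.g1
  g2 := f P.g2
  k1 := f P.k1
  k2 := f P.k2
  n := f P.n
  c1 := f P.c1
  c2 := f P.c2
  x := f P.x
  y := f P.y
  z := f P.z
  l0 := f P.l0
  l1 := f P.l1
  l2 := f P.l2
  m0 := f P.m0
  m1 := f P.m1
  m2 := f P.m2
  e0 := f P.e0
  e1 := f P.e1
  e2 := f P.e2
  h := f P.h
  u := f P.u
  v := f P.v
  hn := by rw [P.hn]; simp only [map_add, map_mul, map_pow, map_sub, map_neg, map_one, map_zero, map_ofNat]
  hS := by have := congrArg f P.hS; simpa only [map_add, map_mul, map_pow, map_sub, map_neg, map_one, map_zero, map_ofNat] using this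
  hH := by have := congrArg f P.hH; simpa only [map_add, map_mul, map_pow, map_sub, map_neg, map_one, map_zero, map_ofNat] using this
  hc1 := by rw [P.hc1]; simp only [map_add, map_mul, map_pow, map_sub, map_neg, map_one, map_zero, map_ofNat]
  hc2 := by rw [P.hc2]; simp only [map_add, map_mul, map_pow, map_sub, map_neg, map_one, map_zero, map_ofNat]
  hx := by rw [P.hx]; simp only [map_add, map_mul, map_pow, map_sub, map_neg, map_one, map_zero, map_ofNat]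
  hy := by rw [P.hy]; simp only [map_add, map_mul, map_pow, map_sub, map_neg, map_one, map_zero, map_ofNat]
  hz := by rw [P.hz]; simp only [map_add, map_mul, map_pow, map_sub, map_neg, map_one, map_zero, map_ofNat]
  hl0 := by rw [P.hl0]; simp only [map_add, map_mul, map_pow, map_sub, map_neg, map_one, map_zero, map_ofNat]
  hl1 := by rw [P.hl1]; simp only [map_add, map_mul, map_pow, map_sub, map_neg, map_one, map_zero, map_ofNat]
  hl2 := by rw [P.hl2]; simp only [map_add, map_mul, map_pow, map_sub, map_neg, map_one, map_zero, map_ofNat]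
  hm0 := by rw [P.hm0]; simp only [map_add, map_mul, map_pow, map_sub, map_neg, map_one, map_zero, map_ofNat]
  hm1 := by rw [P.hm1]; simp only [map_add, map_mul, map_pow, map_sub, map_neg, map_one, map_zero, map_ofNat]
  hm2 := by rw [P.hm2]; simp only [map_add, map_mul, map_pow, map_sub, map_neg, map_one, map_zero, map_ofNat]
  he0 := by rw [P.he0]; simp only [map_add, map_mul, map_pow, map_sub, map_neg, map_one, map_zero, map_ofNat]
  he1 := by rw [P.he1]; simp only [map_add, map_mul, map_pow, map_sub, map_neg, map_one, map_zero, map_ofNat]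
  he2 := by rw [P.he2]; simp only [map_add, map_mul, map_pow, map_sub, map_neg, map_one, map_zero, map_ofNat]
  hh := by rw [P.hh]; simp only [map_add, map_mul, map_pow, map_sub, map_neg, map_one, map_zero, map_ofNat]
  hu := by rw [← P.hu]; simp only [map_mul]
  hv := by rw [← P.hv]; simp only [map_mul]

variable {K : Type*} [Field K] (P : Par K)

/-- the square of the absolute value of the determinant of the linear system -/
def dd : K := 4*P.x^2*P.l2^2 - 8*P.x*P.l0*P.l2^2 + 8*P.x*P.l1^2*P.l2 - 4*P.x*P.l1*P.l2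
  - 4*P.x*P.l2 + 4*P.l0^2*P.l2^2 - 8*P.l0*P.l1^2*P.l2 + 4*P.l0*P.l1*P.l2 + 4*P.l0*P.l2
  + 4*P.l1^4 - 4*P.l1^3 - 4*P.l1 + 4

theorem n_ne : P.n ≠ 0 := by
  intro h
  have := P.hS
  rw [h] at this
  simp at this

theorem normc : P.n ^ 3 * (P.c1 ^ 2 + 3 * P.c2 ^ 2) = P.x ^ 3 + 2 := by
  have hS := P.hS
  have hH := P.hH
  rw [P.hc1, P.hc2, P.hx]
  generalize P.k1 = k1 at *
  generalize P.k2 = k2 at *
  generalize P.r1 = r1 at *
  generalize P.r2 = r2 at *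
  generalize P.n = n at *
  linear_combination (n ^ 3 * (- 12*k1^3 + 4*k1^2*r1^2 - 36*k1^2*r2^2 - 36*k1*k2^2
    + 96*k1*k2*r1*r2 - 32*k1*r1 - 36*k2^2*r1^2 + 36*k2^2*r2^2 + 48*k2*r2 - 48*r1^3
    - 144*r1*r2^2 + 4)) * hH
    + 2 * ((n * (2 * k1 + 2 * (r1 ^ 2 + 3 * r2 ^ 2))) ^ 2
      + n * (2 * k1 + 2 * (r1 ^ 2 + 3 * r2 ^ 2)) + 1) * hS

theorem cubic : P.y ^ 2 + 3 * P.z ^ 2 = P.x ^ 3 + 2 := by
  rw [← P.normc, P.hy, P.hz]
  have hn := P.hn
  linear_combination (- (P.n ^ 2 * (P.c1 ^ 2 + 3 * P.c2 ^ 2))) * hn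

theorem norml : P.l0 ^ 3 + 2 * P.l1 ^ 3 + 4 * P.l2 ^ 3 - 6 * P.l0 * P.l1 * P.l2
    = P.x ^ 3 + 2 := by
  have hS := P.hS
  have hH := P.hH
  rw [P.hl0, P.hl1, P.hl2, P.hx]
  generalize P.k1 = k1 at *
  generalize P.k2 = k2 at *
  generalize P.r1 = r1 at *
  generalize P.r2 = r2 at *
  generalize P.n = n at *
  linear_combination (n ^ 3 * (- 12*k1^3 + 4*k1^2*r1^2 - 36*k1^2*r2^2 - 36*k1*k2^2
    + 96*k1*k2*r1*r2 - 32*k1*r1 - 36*k2^2*r1^2 + 36*k2^2*r2^2 + 48*k2*r2 - 48*r1^3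
    - 144*r1*r2^2 + 4)) * hH
    + 2 * ((n * (2 * k1 + 2 * (r1 ^ 2 + 3 * r2 ^ 2))) ^ 2
      + n * (2 * k1 + 2 * (r1 ^ 2 + 3 * r2 ^ 2)) + 1) * hS

theorem normm (hx : P.x ^ 3 + 2 ≠ 0) :
    P.m0 ^ 3 + 2 * P.m1 ^ 3 + 4 * P.m2 ^ 3 - 6 * P.m0 * P.m1 * P.m2 = 1 := by
  have h := P.norml
  rw [P.hm0, P.hm1, P.hm2] at h
  apply mul_right_cancel₀ hx
  linear_combination h

theorem norme (hx : P.x ^ 3 + 2 ≠ 0) :
    P.e0 ^ 3 + 2 * P.e1 ^ 3 + 4 * P.e2 ^ 3 - 6 * P.e0 * P.e1 * P.e2 = P.h ^ 2 := by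
  have h := P.normm hx
  rw [P.he0, P.he1, P.he2, P.hh]
  generalize P.m0 = m0 at *
  generalize P.m1 = m1 at *
  generalize P.m2 = m2 at *
  linear_combination (m0^3 + 3*m0^2 - 6*m0*m1*m2 - 12*m0 + 2*m1^3 + 12*m1*m2 + 4*m2^3 + 8) * h

theorem quad (hx : P.x ^ 3 + 2 ≠ 0) :
    P.h ^ 2 + 3 * P.e0 ^ 2 = 24 * P.e1 * P.e2 := by
  have h := P.normm hx
  rw [P.he0, P.he1, P.he2, P.hh]
  generalize P.m0 = m0 at *
  generalize P.m1 = m1 at *
  generalize P.m2 = m2 at *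
  linear_combination (12 * m0 - 12) * h

theorem eqm (hx : P.x ^ 3 + 2 ≠ 0) :
    2 * P.h * (P.m0 - 1) = P.h * P.e0 + (P.e0 * (2 * P.e0 - 3 * P.e0) + 8 * P.e1 * P.e2) ∧
    2 * P.h * P.m1 = P.h * P.e1 + (2 * P.e0 * P.e1 + P.e1 * (2 * P.e0 - 3 * P.e0)
      + 4 * P.e2 ^ 2) ∧
    2 * P.h * P.m2 = P.h * P.e2 + (2 * P.e0 * P.e2 + 2 * P.e1 ^ 2
      + P.e2 * (2 * P.e0 - 3 * P.e0)) := by
  have h := P.normm hx
  rw [P.he0, P.he1, P.he2, P.hh]
  generalize P.m0 = m0 at *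
  generalize P.m1 = m1 at *
  generalize P.m2 = m2 at *
  refine ⟨?_, ?_, ?_⟩
  · linear_combination (4 * m0 - 4) * h
  · linear_combination (- 2 * m1) * h
  · linear_combination (- 2 * m2) * h

theorem lin1 : (P.l0 - P.x) * P.k1 - P.l2 + (P.l1 - 1) * (-P.r1 - 3 * P.r2) = 0 := by
  have hS := P.hS
  have hH := P.hH
  rw [P.hl0, P.hl1, P.hl2, P.hx]
  generalize P.k1 = k1 at *
  generalize P.k2 = k2 at *
  generalize P.r1 = r1 at *
  generalize P.r2 = r2 at *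
  generalize P.n = n at *
  linear_combination (n * (-1)) * hH + (- r1 - 3 * r2) * hS

theorem lin2 : (P.l0 - P.x) * P.k2 - P.l2 + (P.l1 - 1) * (P.r1 - P.r2) = 0 := by
  have hS := P.hS
  have hH := P.hH
  rw [P.hl0, P.hl1, P.hl2, P.hx]
  generalize P.k1 = k1 at *
  generalize P.k2 = k2 at *
  generalize P.r1 = r1 at *
  generalize P.r2 = r2 at *
  generalize P.n = n at *
  linear_combination (n * (-1)) * hH + (r1 - r2) * hS

theorem lin3 : 2 * P.l1 * P.k1 + (P.k1 - 3 * P.k2) + (P.x - P.l0)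
    + 2 * P.l2 * (-P.r1 - 3 * P.r2) = 0 := by
  have hS := P.hS
  have hH := P.hH
  rw [P.hl0, P.hl1, P.hl2, P.hx]
  generalize P.k1 = k1 at *
  generalize P.k2 = k2 at *
  generalize P.r1 = r1 at *
  generalize P.r2 = r2 at *
  generalize P.n = n at *
  linear_combination (4 * n * r1) * hH - (k1 - 3 * k2) * hS

theorem lin4 : 2 * P.l1 * P.k2 + (P.k1 + P.k2) + (-P.l0 - P.x)
    + 2 * P.l2 * (P.r1 - P.r2) = 0 := by
  have hS := P.hS
  have hH := P.hH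
  rw [P.hl0, P.hl1, P.hl2, P.hx]
  generalize P.k1 = k1 at *
  generalize P.k2 = k2 at *
  generalize P.r1 = r1 at *
  generalize P.r2 = r2 at *
  generalize P.n = n at *
  linear_combination (4 * n * r2) * hH - (k1 + k2) * hS

end Par

end Pool.Agent.H64.SymDP
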