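import Pool.Agent.H64.SymDP.Formulas

/-!
# The parameters lie in every subfield containing `x, y, z, u, v`
-/

namespace Pool.Agent.H64.SymDP

namespace Par

variable {K : Type*} [Field K] [CharZero K] (P : Par K) (S : Subfield K)

/-- `e2` in terms of `u` and `v` -/
theorem e2_mem (hx : P.x ^ 3 + 2 ≠ 0) (he2 : P.e2 ≠ 0) (hh : P.h ≠ 0)
    (hu : P.u ∈ S) (hv : P.v ∈ S) : P.e2 ∈ S ∧ P.e1 ∈ S ∧ P.e0 ∈ S ∧ P.h ∈ S := by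
  have h1 := P.norme hx
  have h2 := P.quad hx
  have h3 := P.hu
  have h4 := P.hv
  set u := P.u with hu'
  set v := P.v with hv'
  have e1eq : P.e1 = (v ^ 2 + 3 * u ^ 2) / 24 * P.e2 := by
    apply mul_right_cancel₀ he2
    rw [← h3, ← h4] at h2
    linear_combination (-(1 : K) / 24) * h2
  have hv0 : v ≠ 0 := by
    intro h0
    apply hh
    rw [← h4, h0, zero_mul]
  set N := u ^ 3 + 2 * ((v ^ 2 + 3 * u ^ 2) / 24) ^ 3 + 4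
    - 6 * u * ((v ^ 2 + 3 * u ^ 2) / 24) with hN
  have h5 : P.e2 * N = v ^ 2 := by
    apply mul_right_cancel₀ (pow_ne_zero 2 he2)
    rw [e1eq, ← h3, ← h4] at h1
    rw [hN]
    linear_combination h1
  have hN0 : N ≠ 0 := by
    intro h0
    rw [h0, mul_zero] at h5
    exact pow_ne_zero 2 hv0 h5.symm
  have h6 : P.e2 = v ^ 2 / N := by
    rw [eq_div_iff hN0, h5]
  lift u to S using hu with u1
  lift v to S using hv with v1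
  have hmem : P.e2 ∈ S := by
    rw [h6, hN]
    have : (↑v1 : K) ^ 2 / (↑u1 ^ 3 + 2 * ((↑v1 ^ 2 + 3 * ↑u1 ^ 2) / 24) ^ 3 + 4
        - 6 * ↑u1 * ((↑v1 ^ 2 + 3 * ↑u1 ^ 2) / 24)) =
        ((v1 ^ 2 / (u1 ^ 3 + 2 * ((v1 ^ 2 + 3 * u1 ^ 2) / 24) ^ 3 + 4
        - 6 * u1 * ((v1 ^ 2 + 3 * u1 ^ 2) / 24)) : S) : K) := by
      push_cast
      rfl
    rw [this]
    exact SetLike.coe_mem _
  refine ⟨hmem, ?_, ?_, ?_⟩
  · rw [e1eq]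
    have : ((↑v1 ^ 2 + 3 * ↑u1 ^ 2) / 24 : K) = (((v1 ^ 2 + 3 * u1 ^ 2) / 24 : S) : K) := by
      push_cast
      rfl
    rw [this]
    exact S.mul_mem (SetLike.coe_mem _) hmem
  · rw [← h3]
    exact S.mul_mem (SetLike.coe_mem _) hmem
  · rw [← h4]
    exact S.mul_mem (SetLike.coe_mem _) hmem

/-- the coordinates of `lambda_1` -/
theorem m_mem (hx : P.x ^ 3 + 2 ≠ 0) (hh : P.h ≠ 0)
    (he0 : P.e0 ∈ S) (he1 : P.e1 ∈ S) (he2 : P.e2 ∈ S) (hhS : P.h ∈ S) :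
    P.m0 ∈ S ∧ P.m1 ∈ S ∧ P.m2 ∈ S := by
  obtain ⟨h0, h1, h2⟩ := P.eqm hx
  set e0 := P.e0
  set e1 := P.e1
  set e2 := P.e2
  set h := P.h
  have h2h : (2 : K) * h ≠ 0 := mul_ne_zero two_ne_zero hh
  have g0 : P.m0 = (h * e0 + (e0 * (2 * e0 - 3 * e0) + 8 * e1 * e2)) / (2 * h) + 1 := by
    field_simp
    linear_combination h0
  have g1 : P.m1 = (h * e1 + (2 * e0 * e1 + e1 * (2 * e0 - 3 * e0) + 4 * e2 ^ 2)) / (2 * h) := by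
    field_simp
    linear_combination h1
  have g2 : P.m2 = (h * e2 + (2 * e0 * e2 + 2 * e1 ^ 2 + e2 * (2 * e0 - 3 * e0))) / (2 * h) := by
    field_simp
    linear_combination h2
  lift e0 to S using he0 with e0'
  lift e1 to S using he1 with e1'
  lift e2 to S using he2 with e2'
  lift h to S using hhS with h'
  rw [g0, g1, g2]
  refine ⟨?_, ?_, ?_⟩
  · have : (↑h' * ↑e0' + (↑e0' * (2 * ↑e0' - 3 * ↑e0') + 8 * ↑e1' * ↑e2')) / (2 * ↑h') + 1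
      = (((h' * e0' + (e0' * (2 * e0' - 3 * e0') + 8 * e1' * e2')) / (2 * h') + 1 : S) : K) := by
      push_cast
      rfl
    rw [this]
    exact SetLike.coe_mem _
  · have : (↑h' * ↑e1' + (2 * ↑e0' * ↑e1' + ↑e1' * (2 * ↑e0' - 3 * ↑e0') + 4 * ↑e2' ^ 2))
        / (2 * ↑h')
      = (((h' * e1' + (2 * e0' * e1' + e1' * (2 * e0' - 3 * e0') + 4 * e2' ^ 2))
        / (2 * h') : S) : K) := by
      push_cast
      rfl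
    rw [this]
    exact SetLike.coe_mem _
  · have : (↑h' * ↑e2' + (2 * ↑e0' * ↑e2' + 2 * ↑e1' ^ 2 + ↑e2' * (2 * ↑e0' - 3 * ↑e0')))
        / (2 * ↑h')
      = (((h' * e2' + (2 * e0' * e2' + 2 * e1' ^ 2 + e2' * (2 * e0' - 3 * e0')))
        / (2 * h') : S) : K) := by
      push_cast
      rfl
    rw [this]
    exact SetLike.coe_mem _

/-- the coordinates of `lambda` -/
theorem l_mem (hx : P.x ∈ S) (hm0 : P.m0 ∈ S) (hm1 : P.m1 ∈ S) (hm2 : P.m2 ∈ S) :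
    P.l0 ∈ S ∧ P.l1 ∈ S ∧ P.l2 ∈ S := by
  have h2 : (2 : K) ∈ S := ofNat_mem S 2
  rw [P.hm0, P.hm1, P.hm2]
  exact ⟨S.add_mem (S.mul_mem hm0 hx) (S.mul_mem h2 hm2), S.add_mem (S.mul_mem hm1 hx) hm0,
    S.add_mem (S.mul_mem hm2 hx) hm1⟩

/-- Cramer's rule for the linear system of `k1, k2, r1, r2` -/
theorem cramer :
    P.dd * P.k1 = - 2*P.x^2*P.l1*P.l2 + 2*P.x^2*P.l2 + 4*P.x*P.l0*P.l1*P.l2 - 4*P.x*P.l0*P.l2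
      - 2*P.x*P.l1^3 + 6*P.x*P.l1^2 - 6*P.x*P.l1 - 4*P.x*P.l2^3 + 2*P.x - 2*P.l0^2*P.l1*P.l2
      + 2*P.l0^2*P.l2 + 2*P.l0*P.l1^3 - 6*P.l0*P.l1 + 4*P.l0*P.l2^3 + 4*P.l0 - 4*P.l1^2*P.l2^2
      - 4*P.l1*P.l2^2 + 8*P.l2^2 ∧
    P.dd * P.k2 = 2*P.x^2*P.l1*P.l2 - 2*P.x^2*P.l2 + 2*P.x*P.l1^3 - 2*P.x*P.l1^2 - 2*P.x*P.l1
      - 4*P.x*P.l2^3 + 2*P.x - 2*P.l0^2*P.l1*P.l2 + 2*P.l0^2*P.l2 + 2*P.l0*P.l1^3
      - 4*P.l0*P.l1^2 + 2*P.l0*P.l1 + 4*P.l0*P.l2^3 - 4*P.l1^2*P.l2^2 + 4*P.l1*P.l2^2 ∧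
    P.dd * P.r1 = 2*P.x^3*P.l2 - 3*P.x^2*P.l0*P.l2 + 2*P.x^2*P.l1^2 - P.x^2*P.l1 - P.x^2
      - P.x*P.l0*P.l1^2 - P.x*P.l0*P.l1 + 2*P.x*P.l0 + 2*P.x*P.l1*P.l2^2 + 4*P.x*P.l2^2
      + P.l0^3*P.l2 - P.l0^2*P.l1^2 + 2*P.l0^2*P.l1 - P.l0^2 - 2*P.l0*P.l1*P.l2^2
      - 4*P.l0*P.l2^2 + 2*P.l1^3*P.l2 - 2*P.l2 ∧
    P.dd * P.r2 = - P.x^2*P.l0*P.l2 - P.x^2*P.l1 + P.x^2 + 2*P.x*P.l0^2*P.l2 - P.x*P.l0*P.l1^2
      + P.x*P.l0*P.l1 - 2*P.x*P.l1*P.l2^2 - P.l0^3*P.l2 + P.l0^2*P.l1^2 - P.l0^2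
      + 2*P.l0*P.l1*P.l2^2 - 2*P.l1^3*P.l2 + 2*P.l2 := by
  have E1 := P.lin1
  have E2 := P.lin2
  have E3 := P.lin3
  have E4 := P.lin4
  unfold dd
  generalize P.k1 = k1 at *
  generalize P.k2 = k2 at *
  generalize P.r1 = r1 at *
  generalize P.r2 = r2 at *
  generalize P.x = x at *
  generalize P.l0 = l0 at *
  generalize P.l1 = l1 at *
  generalize P.l2 = l2 at *
  refine ⟨?_, ?_, ?_, ?_⟩
  · linear_combination (- 4*x*l2^2 + 4*l0*l2^2 - 4*l1^2*l2 + 2*l1*l2 + 2*l2) * E1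
      + (- 6*l1*l2 + 6*l2) * E2
      + (4*x*l1*l2 - 4*x*l2 - 4*l0*l1*l2 + 4*l0*l2 + 4*l1^3 - 6*l1^2 + 2) / 2 * E3
      + (6*l1^2 - 12*l1 + 6) / 2 * E4
  · linear_combination (2*l1*l2 - 2*l2) * E1
      + (- 4*x*l2^2 + 4*l0*l2^2 - 4*l1^2*l2 + 2*l1*l2 + 2*l2) * E2
      + (- 2*l1^2 + 4*l1 - 2) / 2 * E3
      + (4*x*l1*l2 - 4*x*l2 - 4*l0*l1*l2 + 4*l0*l2 + 4*l1^3 - 6*l1^2 + 2) / 2 * E4
  · linear_combination (- x*l1*l2 + x*l2 + l0*l1*l2 - l0*l2 - l1^3 + 1) * E1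
      + (3*x*l1*l2 + 3*x*l2 - 3*l0*l1*l2 - 3*l0*l2 + 3*l1^3 - 3) * E2
      + (- x^2*l2 + 2*x*l0*l2 - x*l1^2 - x*l1 + 2*x - l0^2*l2 + l0*l1^2 + l0*l1 - 2*l0) / 2 * E3
      + (3*x^2*l2 - 6*x*l0*l2 + 3*x*l1^2 - 3*x*l1 + 3*l0^2*l2 - 3*l0*l1^2 + 3*l0*l1) / 2 * E4
  · linear_combination (- x*l1*l2 - x*l2 + l0*l1*l2 + l0*l2 - l1^3 + 1) * E1
      + (- x*l1*l2 + x*l2 + l0*l1*l2 - l0*l2 - l1^3 + 1) * E2
      + (- x^2*l2 + 2*x*l0*l2 - x*l1^2 + x*l1 - l0^2*l2 + l0*l1^2 - l0*l1) / 2 * E3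
      + (- x^2*l2 + 2*x*l0*l2 - x*l1^2 - x*l1 + 2*x - l0^2*l2 + l0*l1^2 + l0*l1 - 2*l0) / 2 * E4

/-- the parameters `k1, k2, r1, r2` -/
theorem kr_mem (hd : P.dd ≠ 0) (hx : P.x ∈ S) (hl0 : P.l0 ∈ S) (hl1 : P.l1 ∈ S)
    (hl2 : P.l2 ∈ S) : P.k1 ∈ S ∧ P.k2 ∈ S ∧ P.r1 ∈ S ∧ P.r2 ∈ S := by
  obtain ⟨h1, h2, h3, h4⟩ := P.cramer
  have hdS : P.dd ∈ S := by
    unfold dd
    repeat' (first | assumption | exact ofNat_mem _ _ | exact one_mem _ | apply add_mem |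
      apply sub_mem | apply neg_mem | apply div_mem | apply mul_mem | apply pow_mem)
  have key : ∀ a b : K, P.dd * a = b → b ∈ S → a ∈ S := by
    intro a b hab hb
    have : a = b / P.dd := by rw [eq_div_iff hd, mul_comm, hab]
    rw [this]
    exact S.div_mem hb hdS
  refine ⟨key _ _ h1 ?_, key _ _ h2 ?_, key _ _ h3 ?_, key _ _ h4 ?_⟩ <;>
  repeat' (first | assumption | exact ofNat_mem _ _ | exact one_mem _ | apply add_mem |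
    apply sub_mem | apply neg_mem | apply div_mem | apply mul_mem | apply pow_mem)

theorem g_mem (hx3 : P.x ^ 3 + 2 ≠ 0) (hy : P.y ∈ S) (hz : P.z ∈ S) (hk1 : P.k1 ∈ S)
    (hk2 : P.k2 ∈ S) (hr1 : P.r1 ∈ S) (hr2 : P.r2 ∈ S) : P.g1 ∈ S ∧ P.g2 ∈ S := by
  have hn := P.n_ne
  have hnc := P.normc
  have hS := P.hS
  have hc : P.c1 ^ 2 + 3 * P.c2 ^ 2 ≠ 0 := by
    intro h0
    rw [h0, mul_zero] at hnc
    exact hx3 hnc.symm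
  have h2 : (2 : K) ∈ S := ofNat_mem S 2
  have h3 : (3 : K) ∈ S := ofNat_mem S 3
  have h4 : (4 : K) ∈ S := ofNat_mem S 4
  have h6 : (6 : K) ∈ S := ofNat_mem S 6
  have h9 : (9 : K) ∈ S := ofNat_mem S 9
  have hnS : P.n ∈ S := by
    have : P.n = (2 * P.k1 + 2 * (P.r1 ^ 2 + 3 * P.r2 ^ 2))⁻¹ := by
      exact eq_inv_of_mul_eq_one_left hS
    rw [this]
    exact S.inv_mem (S.add_mem (S.mul_mem h2 hk1) (S.mul_mem h2 (S.add_mem (S.pow_mem hr1 2)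
      (S.mul_mem h3 (S.pow_mem hr2 2)))))
  have hc1 : P.c1 ∈ S := by
    rw [P.hc1]
    repeat' (first | assumption | exact ofNat_mem _ _ | exact one_mem _ | apply add_mem |
      apply sub_mem | apply neg_mem | apply div_mem | apply mul_mem | apply pow_mem)
  have hc2 : P.c2 ∈ S := by
    rw [P.hc2]
    repeat' (first | assumption | exact ofNat_mem _ _ | exact one_mem _ | apply add_mem |
      apply sub_mem | apply neg_mem | apply div_mem | apply mul_mem | apply pow_mem)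
  have g1 : P.g1 = (P.y * P.c1 + 3 * P.z * P.c2) / (P.n * (P.c1 ^ 2 + 3 * P.c2 ^ 2)) := by
    rw [eq_div_iff (mul_ne_zero hn hc), P.hy, P.hz]
    ring
  have g2 : P.g2 = (P.z * P.c1 - P.y * P.c2) / (P.n * (P.c1 ^ 2 + 3 * P.c2 ^ 2)) := by
    rw [eq_div_iff (mul_ne_zero hn hc), P.hy, P.hz]
    ring
  have hden : P.n * (P.c1 ^ 2 + 3 * P.c2 ^ 2) ∈ S :=
    S.mul_mem hnS (S.add_mem (S.pow_mem hc1 2) (S.mul_mem h3 (S.pow_mem hc2 2)))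
  constructor
  · rw [g1]
    exact S.div_mem (S.add_mem (S.mul_mem hy hc1) (S.mul_mem (S.mul_mem h3 hz) hc2)) hden
  · rw [g2]
    exact S.div_mem (S.sub_mem (S.mul_mem hz hc1) (S.mul_mem hy hc2)) hden

/-- all parameters lie in every subfield containing `x, y, z, u, v` -/
theorem mem_all (hx3 : P.x ^ 3 + 2 ≠ 0) (he2 : P.e2 ≠ 0) (hh : P.h ≠ 0) (hd : P.dd ≠ 0)
    (hx : P.x ∈ S) (hy : P.y ∈ S) (hz : P.z ∈ S) (hu : P.u ∈ S) (hv : P.v ∈ S) :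
    P.r1 ∈ S ∧ P.r2 ∈ S ∧ P.g1 ∈ S ∧ P.g2 ∈ S := by
  obtain ⟨a2, a1, a0, ah⟩ := P.e2_mem S hx3 he2 hh hu hv
  obtain ⟨b0, b1, b2⟩ := P.m_mem S hx3 hh a0 a1 a2 ah
  obtain ⟨c0, c1, c2⟩ := P.l_mem S hx b0 b1 b2
  obtain ⟨d1, d2, d3, d4⟩ := P.kr_mem S hd hx c0 c1 c2
  obtain ⟨f1, f2⟩ := P.g_mem S hx3 hy hz d1 d2 d3 d4
  exact ⟨d3, d4, f1, f2⟩

end Par

end Pool.Agent.H64.SymDP
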