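import Mathlib

/-!
# Transcendence degree of generated fields
-/

namespace Pool.Agent.H64.SymDP

open IntermediateField
open scoped IntermediateField.algebraAdjoinAdjoin

section

variable {F K : Type} [Field F] [Field K] [Algebra F K]

/-- a field generated by elements algebraic over `F(s)` is algebraic over `F(s)` -/
theorem isAlgebraic_of_generators {s T : Set K} (hT : adjoin F T = ⊤)
    (h : ∀ t ∈ T, IsAlgebraic (adjoin F s) t) : Algebra.IsAlgebraic (adjoin F s) K := by
  constructor
  intro w
  have h1 : T ⊆ ((algebraicClosure (adjoin F s) K).restrictScalars F : Set K) := by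
    intro t ht
    exact mem_algebraicClosure_iff.2 (h t ht)
  have h2 : adjoin F T ≤ (algebraicClosure (adjoin F s) K).restrictScalars F :=
    adjoin_le_iff.2 h1
  rw [hT] at h2
  have h3 : w ∈ (algebraicClosure (adjoin F s) K).restrictScalars F := h2 (mem_top)
  exact mem_algebraicClosure_iff.1 h3

theorem isAlgebraic_algebraAdjoin {s : Set K} (h : Algebra.IsAlgebraic (adjoin F s) K) :
    Algebra.IsAlgebraic (Algebra.adjoin F s) K :=
  (IsFractionRing.comap_isAlgebraic_iff (A := Algebra.adjoin F s) (K := adjoin F s)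
    (C := K)).2 h

theorem trdeg_le {s T : Set K} (hT : adjoin F T = ⊤)
    (h : ∀ t ∈ T, IsAlgebraic (adjoin F s) t) : Algebra.trdeg F K ≤ Cardinal.mk s :=
  have := isAlgebraic_algebraAdjoin (isAlgebraic_of_generators hT h)
  Algebra.IsAlgebraic.trdeg_le_cardinalMk F s

theorem isAlgebraic_of_mem {s : Set K} {t : K} (h : t ∈ adjoin F s) :
    IsAlgebraic (adjoin F s) t :=
  isAlgebraic_algebraMap (R := adjoin F s) (A := K) ⟨t, h⟩

theorem isAlgebraic_of_sq_mem {s : Set K} {t : K} (h : t ^ 2 ∈ adjoin F s) :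
    IsAlgebraic (adjoin F s) t :=
  IsAlgebraic.of_pow (n := 2) (by norm_num) (isAlgebraic_of_mem h)

end

theorem trdeg_surface {F M : Type} [Field F] [CharZero F] [Field M] [Algebra F M]
    {x y z u v : M}
    (h : y ^ 2 + 3 * z ^ 2 = x ^ 3 + 2)
    (htop : adjoin F {x, y, z, u, v} = ⊤) (htr : Algebra.trdeg F M = 4) :
    Algebra.trdeg F (adjoin F {x, y, z}) = 2 := by
  have hcz : CharZero M := charZero_of_injective_algebraMap (algebraMap F M).injective
  set E := adjoin F {x, y, z} with hE
  have h1 : Algebra.trdeg F E + Algebra.trdeg E M = 4 := by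
    rw [trdeg_add_eq, htr]
  have h2 : Algebra.trdeg E M ≤ 2 := by
    have : Algebra.trdeg E M ≤ Cardinal.mk ({u, v} : Set M) := by
      refine trdeg_le (F := E) (s := {u, v}) (T := {u, v}) ?_ ?_
      · have : (adjoin E {u, v}).restrictScalars F = ⊤ := by
          rw [eq_top_iff, ← htop, adjoin_le_iff]
          have hxE : ∀ w ∈ ({x, y, z} : Set M), w ∈ (adjoin E {u, v}).restrictScalars F := by
            intro w hw
            have hw' : w ∈ E := subset_adjoin _ _ hw
            exact (adjoin E {u, v}).algebraMap_mem ⟨w, hw'⟩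
          rintro w (rfl | rfl | rfl | rfl | rfl)
          · exact hxE _ (by simp)
          · exact hxE _ (by simp)
          · exact hxE _ (by simp)
          · exact subset_adjoin E {w, v} (by simp)
          · exact subset_adjoin E {u, w} (by simp)
        rw [eq_top_iff]
        intro w _
        have : w ∈ (adjoin E {u, v}).restrictScalars F := by
          rw [this]; exact mem_top
        exact this
      · intro t ht
        exact isAlgebraic_of_mem (subset_adjoin _ _ ht)
    refine this.trans ?_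
    exact (Cardinal.mk_insert_le).trans (by rw [Cardinal.mk_singleton]; norm_num)
  have h3 : Algebra.trdeg F E ≤ 2 := by
    have hxE : x ∈ E := subset_adjoin _ _ (by simp)
    have hyE : y ∈ E := subset_adjoin _ _ (by simp)
    have hzE : z ∈ E := subset_adjoin _ _ (by simp)
    have : Algebra.trdeg F E ≤ Cardinal.mk ({⟨x, hxE⟩, ⟨y, hyE⟩} : Set E) := by
      refine trdeg_le (F := F) (T := {⟨x, hxE⟩, ⟨y, hyE⟩, ⟨z, hzE⟩}) ?_ ?_
      · rw [← IntermediateField.lift_inj, lift_adjoin, lift_top]
        simp only [Set.image_insert_eq, Set.image_singleton]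
        exact hE.symm
      · have m1 : (⟨x, hxE⟩ : E) ∈ adjoin F ({⟨x, hxE⟩, ⟨y, hyE⟩} : Set E) :=
          subset_adjoin _ _ (by simp)
        have m2 : (⟨y, hyE⟩ : E) ∈ adjoin F ({⟨x, hxE⟩, ⟨y, hyE⟩} : Set E) :=
          subset_adjoin _ _ (by simp)
        rintro t (rfl | rfl | rfl)
        · exact isAlgebraic_of_mem m1
        · exact isAlgebraic_of_mem m2
        · apply isAlgebraic_of_sq_mem
          have e : (⟨z, hzE⟩ : E) ^ 2 = ((⟨x, hxE⟩ : E) ^ 3 + 2 - (⟨y, hyE⟩ : E) ^ 2) / 3 := by
            rw [eq_div_iff (by norm_num)]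
            apply Subtype.ext
            show z ^ 2 * 3 = x ^ 3 + 2 - y ^ 2
            linear_combination h
          rw [e]
          have n2 : (2 : E) ∈ adjoin F ({⟨x, hxE⟩, ⟨y, hyE⟩} : Set E) := ofNat_mem _ 2
          have n3 : (3 : E) ∈ adjoin F ({⟨x, hxE⟩, ⟨y, hyE⟩} : Set E) := ofNat_mem _ 3
          exact div_mem (sub_mem (add_mem (pow_mem m1 3) n2) (pow_mem m2 2)) n3
    refine this.trans ?_
    exact (Cardinal.mk_insert_le).trans (by rw [Cardinal.mk_singleton]; norm_num)
  refine le_antisymm h3 ?_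
  obtain ⟨a, ha⟩ := Cardinal.lt_aleph0.1 (h3.trans_lt (Cardinal.nat_lt_aleph0 2))
  obtain ⟨b, hb⟩ := Cardinal.lt_aleph0.1 (h2.trans_lt (Cardinal.nat_lt_aleph0 2))
  rw [ha, hb] at h1
  rw [hb] at h2
  rw [ha]
  have h1' : a + b = 4 := by exact_mod_cast h1
  have h2' : b ≤ 2 := by exact_mod_cast h2
  have : 2 ≤ a := by omega
  exact_mod_cast this

end Pool.Agent.H64.SymDP
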