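import Pool.Agent.H64.SymDP.Point
import Pool.Agent.H64.SymDP.Trdeg
import Pool.Agent.H64.SymDP.Member

/-!
# From the explicit parametrization to rationality of the symmetric square
-/

open MvPolynomial

namespace Pool.Agent.H64.SymDP

open Pool.Agent.H48.SymDP

namespace Par

/-- the discriminant of the quadratic equation of the two further intersection points of the
line through `(x, y, z)` in the direction `(1, u, v)` -/
def disc {K : Type*} [Field K] (P : Par K) : K :=
  P.u ^ 4 + 6 * P.u ^ 2 * P.v ^ 2 + 9 * P.v ^ 4 - 6 * P.x * (P.u ^ 2 + 3 * P.v ^ 2)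
    - 3 * P.x ^ 2 + 8 * P.y * P.u + 24 * P.z * P.v

/-- nondegeneracy -/
structure Good {K : Type*} [Field K] (P : Par K) : Prop where
  hx3 : P.x ^ 3 + 2 ≠ 0
  hx1 : P.x + 1 ≠ 0
  he2 : P.e2 ≠ 0
  hh : P.h ≠ 0
  hd : P.dd ≠ 0
  hD : ∀ r : K, r ^ 2 ≠ P.disc

end Par

attribute [-instance] DivisionRing.toRatAlgebra

theorem nonempty_ratAlgHom {A B : Type} [Ring A] [Ring B] (_ : Algebra ℚ A) (_ : Algebra ℚ B)
    (f : A →+* B) : Nonempty (A →ₐ[ℚ] B) :=
  ⟨{ f with commutes' := fun r => f.map_rat_algebraMap r }⟩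

theorem nonempty_ratAlgEquiv {A B : Type} [Ring A] [Ring B] (_ : Algebra ℚ A) (_ : Algebra ℚ B)
    (f : A ≃+* B) : Nonempty (A ≃ₐ[ℚ] B) :=
  ⟨{ f with commutes' := fun r => (f : A →+* B).map_rat_algebraMap r }⟩

variable {M : Type} [Field M] [Algebra ℚ M] (P : Par M)

theorem adjoin_xyzuv (hP : P.Good)
    (htop : IntermediateField.adjoin ℚ {P.r1, P.r2, P.g1, P.g2} = ⊤) :
    IntermediateField.adjoin ℚ {P.x, P.y, P.z, P.u, P.v} = ⊤ := by
  have hcz : CharZero M := charZero_of_injective_algebraMap (algebraMap ℚ M).injective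
  rw [eq_top_iff, ← htop, IntermediateField.adjoin_le_iff]
  have hs : ∀ w ∈ ({P.x, P.y, P.z, P.u, P.v} : Set M),
      w ∈ (IntermediateField.adjoin ℚ {P.x, P.y, P.z, P.u, P.v}).toSubfield :=
    fun w hw => IntermediateField.subset_adjoin _ _ hw
  obtain ⟨h1, h2, h3, h4⟩ := P.mem_all
    (IntermediateField.adjoin ℚ {P.x, P.y, P.z, P.u, P.v}).toSubfield hP.hx3 hP.he2 hP.hh hP.hd
    (hs _ (by simp)) (hs _ (by simp)) (hs _ (by simp)) (hs _ (by simp)) (hs _ (by simp))
  rintro w (rfl | rfl | rfl | rfl)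
  · exact h1
  · exact h2
  · exact h3
  · exact h4

theorem unirational_of_par (hP : P.Good)
    (htop : IntermediateField.adjoin ℚ {P.r1, P.r2, P.g1, P.g2} = ⊤)
    (htr : Algebra.trdeg ℚ M = 4)
    (e : M ≃+* FractionRing (MvPolynomial (Fin 4) ℚ)) : X₀.Unirational := by
  have hcz : CharZero M := charZero_of_injective_algebraMap (algebraMap ℚ M).injective
  have hxyzuv := adjoin_xyzuv P hP htop
  set E := IntermediateField.adjoin ℚ {P.x, P.y, P.z} with hE
  have hxE : P.x ∈ E := IntermediateField.subset_adjoin _ _ (by simp)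
  have hyE : P.y ∈ E := IntermediateField.subset_adjoin _ _ (by simp)
  have hzE : P.z ∈ E := IntermediateField.subset_adjoin _ _ (by simp)
  refine ⟨E, inferInstance, E.algebra', 4, ⟨?_⟩, 
    nonempty_ratAlgHom _ _ ((e : M →+* FractionRing (MvPolynomial (Fin 4) ℚ)).comp
      (E.val : E →+* M))⟩
  refine powerFieldOne (x := ⟨P.x, hxE⟩) (y := ⟨P.y, hyE⟩) (z := ⟨P.z, hzE⟩) ?_ ?_ ?_ ?_
  · apply Subtype.ext
    exact P.cubic
  · intro h
    exact hP.hx1 (congrArg Subtype.val h)
  · rw [← IntermediateField.lift_inj, IntermediateField.lift_adjoin, IntermediateField.lift_top]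
    simp only [Set.image_insert_eq, Set.image_singleton]
    exact hE.symm
  · exact trdeg_surface P.cubic hxyzuv htr

end Pool.Agent.H64.SymDP
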