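import Pool.Agent.H64.SymDP.Quad
import Pool.Agent.H64.SymDP.Concrete

/-!
# `X₀` is unirational and its symmetric square is rational; the bridge to the cubic surface
-/

open MvPolynomial

namespace Pool.Agent.H64.SymDP

open Pool.Agent.H48.SymDP

attribute [-instance] DivisionRing.toRatAlgebra

theorem trdeg_MM : Algebra.trdeg ℚ MM = 4 := by
  have h1 := trdeg_add_eq (R := ℚ) (S := MvPolynomial (Fin 4) ℚ) (A := MM)
  haveI : Algebra.IsAlgebraic (MvPolynomial (Fin 4) ℚ) MM :=
    IsLocalization.isAlgebraic _ (nonZeroDivisors (MvPolynomial (Fin 4) ℚ))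
  rw [trdeg_eq_zero (R := MvPolynomial (Fin 4) ℚ) (A := MM), add_zero,
    MvPolynomial.trdeg_of_isDomain] at h1
  rw [← h1]
  simp

theorem adjoin_vars : IntermediateField.adjoin ℚ
    ({algebraMap (MvPolynomial (Fin 4) ℚ) MM (X 0), algebraMap (MvPolynomial (Fin 4) ℚ) MM (X 1),
      algebraMap (MvPolynomial (Fin 4) ℚ) MM (X 2), algebraMap (MvPolynomial (Fin 4) ℚ) MM (X 3)} :
      Set MM) = ⊤ := by
  set S := IntermediateField.adjoin ℚ
    ({algebraMap (MvPolynomial (Fin 4) ℚ) MM (X 0), algebraMap (MvPolynomial (Fin 4) ℚ) MM (X 1),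
      algebraMap (MvPolynomial (Fin 4) ℚ) MM (X 2), algebraMap (MvPolynomial (Fin 4) ℚ) MM (X 3)} :
      Set MM) with hS
  have hp : ∀ f : MvPolynomial (Fin 4) ℚ, algebraMap (MvPolynomial (Fin 4) ℚ) MM f ∈ S := by
    intro f
    induction f using MvPolynomial.induction_on with
    | C a =>
      have : algebraMap (MvPolynomial (Fin 4) ℚ) MM (C a) = algebraMap ℚ MM a :=
        (IsScalarTower.algebraMap_apply ℚ (MvPolynomial (Fin 4) ℚ) MM a).symm
      rw [this]
      exact S.algebraMap_mem a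
    | add p q hp hq => rw [map_add]; exact S.add_mem hp hq
    | mul_X p i hp =>
      rw [map_mul]
      refine S.mul_mem hp ?_
      fin_cases i
      · exact IntermediateField.subset_adjoin _ _ (by simp)
      · exact IntermediateField.subset_adjoin _ _ (by simp)
      · exact IntermediateField.subset_adjoin _ _ (by simp)
      · exact IntermediateField.subset_adjoin _ _ (by simp)
  rw [eq_top_iff]
  intro f _
  obtain ⟨a, b, hb, rfl⟩ := IsFractionRing.div_surjective (A := MvPolynomial (Fin 4) ℚ) f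
  exact S.div_mem (hp a) (hp b)

theorem main : X₀.Unirational ∧ X₀.SymRational 2 := by
  obtain ⟨P, h1, h2, h3, h4, hP⟩ := exists_par ![-2, 1, -1, 0]
    (algebraMap (MvPolynomial (Fin 4) ℚ) MM (X 0)) (algebraMap (MvPolynomial (Fin 4) ℚ) MM (X 1))
    (algebraMap (MvPolynomial (Fin 4) ℚ) MM (X 2)) (algebraMap (MvPolynomial (Fin 4) ℚ) MM (X 3))
    (EvalsTo.X 0) (EvalsTo.X 1) (EvalsTo.X 2) (EvalsTo.X 3)
  have htop : IntermediateField.adjoin ℚ {P.r1, P.r2, P.g1, P.g2} = ⊤ := by
    rw [h1, h2, h3, h4]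
    exact adjoin_vars
  exact ⟨unirational_of_par P hP htop trdeg_MM (RingEquiv.refl _),
    symRational_of_par P hP htop trdeg_MM (RingEquiv.refl _)⟩

theorem X₀_unirational : X₀.Unirational := main.1

theorem X₀_symRational : X₀.SymRational 2 := main.2

end Pool.Agent.H64.SymDP
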