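import Pool.Agent.H64.SymDP.Smooth

/-!
# Points of `X₀` from points of the cubic surface `y ^ 2 + 3 z ^ 2 = x ^ 3 + 2`
-/

open MvPolynomial

namespace Pool.Agent.H64.SymDP

open Pool.Agent.H48.SymDP

variable {K : Type} [Field K]

/-- the homogeneous coordinates of the point of `X₀` given by `(x, y, z)` -/
def mkpt (x y z : K) : Fin 5 → K :=
  ![1, x + 1, (2 + 3 * (x + 1) - 2 * y) / (x + 1) ^ 2, (2 + 3 * (x + 1) - 2 * y) / (x + 1),
    2 * z / (x + 1)]

theorem mkpt_ne_zero (x y z : K) : mkpt x y z ≠ 0 := by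
  intro h
  have := congrFun h 0
  simp [mkpt] at this

theorem mkpt_mem [Algebra ℚ K] {x y z : K} (h : y ^ 2 + 3 * z ^ 2 = x ^ 3 + 2) (hx : x + 1 ≠ 0)
    (j : Fin 2) : aeval (mkpt x y z) (X₀.q j) = 0 := by
  fin_cases j
  · show aeval (mkpt x y z) (X 1 * X 2 - X 3 * X 0 : MvPolynomial (Fin 5) ℚ) = 0
    simp [mkpt]
    field_simp
    ring
  · show aeval (mkpt x y z) (3 * X 4 ^ 2 + X 3 ^ 2 - 6 * X 3 * X 0 - 4 * (X 1 + X 2) * X 0
      + 21 * X 0 ^ 2 : MvPolynomial (Fin 5) ℚ) = 0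
    simp [mkpt]
    field_simp
    linear_combination 4 * h

theorem map_mkpt {L : Type} [Field L] (f : K →+* L) (x y z : K) (a : Fin 5) :
    f (mkpt x y z a) = mkpt (f x) (f y) (f z) a := by
  fin_cases a <;> simp [mkpt, map_ofNat]

/-- the coordinates `x, y, z` are rational functions of the ratios of the coordinates -/
theorem mem_of_ratios (S : Subfield K) {x y z : K} (hx : x + 1 ≠ 0)
    (h : ∀ a, mkpt x y z a / mkpt x y z 0 ∈ S) (h2 : (2 : K) ≠ 0) : x ∈ S ∧ y ∈ S ∧ z ∈ S := by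
  have h1 := h 1
  have h3 := h 3
  have h4 := h 4
  simp only [mkpt, Matrix.cons_val] at h1 h3 h4
  rw [div_one] at h1 h3 h4
  have hxS : x ∈ S := by
    have := S.sub_mem h1 S.one_mem
    rwa [add_sub_cancel_right] at this
  have h2S : (2 : K) ∈ S := ofNat_mem S 2
  have h3S : (3 : K) ∈ S := ofNat_mem S 3
  refine ⟨hxS, ?_, ?_⟩
  · have : y = (2 + 3 * (x + 1) - (2 + 3 * (x + 1) - 2 * y) / (x + 1) * (x + 1)) / 2 := by
      rw [div_mul_cancel₀ _ hx]
      field_simp
      ring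
    rw [this]
    exact S.div_mem (S.sub_mem (S.add_mem h2S (S.mul_mem h3S h1)) (S.mul_mem h3 h1)) h2S
  · have : z = (2 * z / (x + 1)) * (x + 1) / 2 := by
      rw [div_mul_cancel₀ _ hx]
      field_simp
    rw [this]
    exact S.div_mem (S.mul_mem h4 h1) h2S

/-- a generic point of the cubic surface gives a generic point of `X₀` -/
def powerFieldOne [Algebra ℚ K] {x y z : K} (h : y ^ 2 + 3 * z ^ 2 = x ^ 3 + 2)
    (hx : x + 1 ≠ 0) (htop : IntermediateField.adjoin ℚ {x, y, z} = ⊤)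
    (htr : Algebra.trdeg ℚ K = 2) : X₀.PowerField 1 K where
  pt := fun _ => mkpt x y z
  pt_ne_zero := fun _ => mkpt_ne_zero x y z
  pt_mem := fun _ j => mkpt_mem h hx j
  adjoin_eq_top := by
    rw [eq_top_iff, ← htop, IntermediateField.adjoin_le_iff]
    have h2 : (2 : K) ≠ 0 := by
      have := (algebraMap ℚ K).injective.ne (two_ne_zero)
      rwa [map_zero, map_ofNat] at this
    obtain ⟨e1, e2, e3⟩ := mem_of_ratios
      (IntermediateField.adjoin ℚ {c : K | ∃ (_ : Fin 1) (a b : Fin 5),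
        c = mkpt x y z a / mkpt x y z b}).toSubfield hx
      (fun a => IntermediateField.subset_adjoin _ _ ⟨0, a, 0, rfl⟩) h2
    rintro w (rfl | rfl | rfl)
    · exact e1
    · exact e2
    · exact e3
  trdeg_eq := by
    rw [htr]
    norm_num

end Pool.Agent.H64.SymDP
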