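import Pool.Agent.H64.SymDP.SymExt

/-!
# Rationality of the symmetric square from the parametrization
-/

open MvPolynomial

namespace Pool.Agent.H64.SymDP

open Pool.Agent.H48.SymDP

attribute [-instance] DivisionRing.toRatAlgebra

section

variable {M : Type} [Field M] (D : M)

theorem omega_sq : (QuadraticAlgebra.omega : QuadraticAlgebra M D 0) ^ 2 =
    algebraMap M (QuadraticAlgebra M D 0) D := by
  rw [pow_two]
  ext <;> simp

theorem algebraMap_ne_omega (m : M) : algebraMap M (QuadraticAlgebra M D 0) m ≠
    QuadraticAlgebra.omega := by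
  intro h
  have := congrArg QuadraticAlgebra.im h
  simp at this

theorem quad_span (l : QuadraticAlgebra M D 0) :
    l = algebraMap M (QuadraticAlgebra M D 0) l.re
      + algebraMap M (QuadraticAlgebra M D 0) l.im * QuadraticAlgebra.omega := by
  ext <;> simp

theorem star_omega : star (QuadraticAlgebra.omega : QuadraticAlgebra M D 0) =
    -QuadraticAlgebra.omega := by
  ext <;> simp

theorem star_algebraMap' (m : M) : star (algebraMap M (QuadraticAlgebra M D 0) m) =
    algebraMap M (QuadraticAlgebra M D 0) m := by
  ext <;> simp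

/-- conjugation -/
def conj' : QuadraticAlgebra M D 0 ≃+* QuadraticAlgebra M D 0 where
  toFun := star
  invFun := star
  left_inv := star_star
  right_inv := star_star
  map_mul' := fun a b => by rw [star_mul, mul_comm]
  map_add' := fun a b => star_add a b

end

section

variable {M : Type} [Field M] [Algebra ℚ M] (P : Par M)

theorem symRational_of_par (hP : P.Good)
    (htop : IntermediateField.adjoin ℚ {P.r1, P.r2, P.g1, P.g2} = ⊤)
    (htr : Algebra.trdeg ℚ M = 4)
    (e : M ≃+* FractionRing (MvPolynomial (Fin 4) ℚ)) : X₀.SymRational 2 := by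
  have hcz : CharZero M := charZero_of_injective_algebraMap (algebraMap ℚ M).injective
  haveI : Fact (∀ r : M, r ^ 2 ≠ P.disc + 0 * r) :=
    ⟨fun r => by rw [zero_mul, add_zero]; exact hP.hD r⟩
  let τ : QuadraticAlgebra M P.disc 0 ≃ₐ[ℚ] QuadraticAlgebra M P.disc 0 :=
    { conj' P.disc with
      commutes' := fun r => by
        show star (algebraMap ℚ (QuadraticAlgebra M P.disc 0) r) =
          algebraMap ℚ (QuadraticAlgebra M P.disc 0) r
        rw [IsScalarTower.algebraMap_apply ℚ M (QuadraticAlgebra M P.disc 0)]
        exact star_algebraMap' _ _ }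
  exact symRational_of_ext (L := QuadraticAlgebra M P.disc 0) P hP (omega_sq P.disc)
    (algebraMap_ne_omega P.disc) (fun l => ⟨_, _, quad_span P.disc l⟩) htop htr τ
    (fun l => star_star l) (star_omega P.disc) (star_algebraMap' P.disc) e

end

end Pool.Agent.H64.SymDP
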