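import Pool.Agent.H64.SymDP.Generic

/-!
# Rationality of the symmetric square from a quadratic extension
-/

open MvPolynomial

namespace Pool.Agent.H64.SymDP

open Pool.Agent.H48.SymDP

attribute [-instance] DivisionRing.toRatAlgebra

section

variable {M L : Type} [Field M] [Field L] [Algebra ℚ M] [Algebra ℚ L] [Algebra M L]
  [IsScalarTower ℚ M L] (P : Par M) (w : L)

/-- the two values of the parameter along the line -/
noncomputable def qq (i : Fin 2) : L :=
  (algebraMap M L (P.u ^ 2 + 3 * P.v ^ 2 - 3 * P.x) + (if i = 0 then w else -w)) / 2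

/-- coordinates of the two points -/
noncomputable def cx (i : Fin 2) : L := algebraMap M L P.x + qq P w i
noncomputable def cy (i : Fin 2) : L := algebraMap M L P.y + algebraMap M L P.u * qq P w i
noncomputable def cz (i : Fin 2) : L := algebraMap M L P.z + algebraMap M L P.v * qq P w i

variable {w}

theorem qq_sq (hw : w ^ 2 = algebraMap M L P.disc) (h2 : (2 : L) ≠ 0) (i : Fin 2) :
    qq P w i ^ 2 = algebraMap M L (P.u ^ 2 + 3 * P.v ^ 2 - 3 * P.x) * qq P w i
      - algebraMap M L (3 * P.x ^ 2 - 2 * (P.u * P.y + 3 * P.v * P.z)) := by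
  have hi : (if i = 0 then w else -w) ^ 2 = algebraMap M L P.disc := by
    split_ifs
    · exact hw
    · rw [neg_sq, hw]
  unfold qq
  rw [div_pow, div_eq_iff (pow_ne_zero 2 h2)]
  generalize (if i = 0 then w else -w) = w' at *
  rw [Par.disc] at hi
  simp only [map_add, map_sub, map_mul, map_pow, map_ofNat] at hi ⊢
  field_simp
  linear_combination hi

theorem c_cubic (hw : w ^ 2 = algebraMap M L P.disc) (h2 : (2 : L) ≠ 0) (i : Fin 2) :
    cy P w i ^ 2 + 3 * cz P w i ^ 2 = cx P w i ^ 3 + 2 := by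
  have h1 := qq_sq P hw h2 i
  have h3 := congrArg (algebraMap M L) P.cubic
  unfold cx cy cz
  simp only [map_add, map_sub, map_mul, map_pow, map_ofNat] at h1 h3 ⊢
  linear_combination h3 - (qq P w i) * h1

theorem cx_add_one_ne (hw0 : ∀ m, algebraMap M L m ≠ w) (h2 : (2 : L) ≠ 0) (i : Fin 2) :
    cx P w i + 1 ≠ 0 := by
  intro h
  unfold cx qq at h
  by_cases hi : i = 0
  · rw [if_pos hi] at h
    apply hw0 (-(2 * P.x + 2) - (P.u ^ 2 + 3 * P.v ^ 2 - 3 * P.x))
    simp only [map_add, map_sub, map_mul, map_pow, map_ofNat, map_neg] at h ⊢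
    field_simp at h
    linear_combination (-1) * h
  · rw [if_neg hi] at h
    apply hw0 ((2 * P.x + 2) + (P.u ^ 2 + 3 * P.v ^ 2 - 3 * P.x))
    simp only [map_add, map_sub, map_mul, map_pow, map_ofNat, map_neg] at h ⊢
    field_simp at h
    linear_combination h

/-- the ground data and the square root in terms of the two points -/
theorem base_mem (hw : w ^ 2 = algebraMap M L P.disc) (hw0 : ∀ m, algebraMap M L m ≠ w)
    (h2 : (2 : L) ≠ 0) (S : Subfield L) (hx : ∀ i, cx P w i ∈ S) (hy : ∀ i, cy P w i ∈ S)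
    (hz : ∀ i, cz P w i ∈ S) :
    algebraMap M L P.x ∈ S ∧ algebraMap M L P.y ∈ S ∧ algebraMap M L P.z ∈ S ∧
    algebraMap M L P.u ∈ S ∧ algebraMap M L P.v ∈ S ∧ w ∈ S := by
  have hx0 := hx 0
  have hx1 := hx 1
  have hy0 := hy 0
  have hy1 := hy 1
  have hz0 := hz 0
  have hz1 := hz 1
  have hwne : w ≠ 0 := fun h => hw0 0 (by rw [map_zero, h])
  have hwS : w ∈ S := by
    have := S.sub_mem hx0 hx1
    have e : cx P w 0 - cx P w 1 = w := by
      unfold cx qq
      simp only [if_true, if_neg (show (1 : Fin 2) ≠ 0 by decide)]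
      field_simp
      ring
    rwa [e] at this
  have huS : algebraMap M L P.u ∈ S := by
    have := S.div_mem (S.sub_mem hy0 hy1) hwS
    have e : (cy P w 0 - cy P w 1) / w = algebraMap M L P.u := by
      rw [div_eq_iff hwne]
      unfold cy qq
      simp only [if_true, if_neg (show (1 : Fin 2) ≠ 0 by decide)]
      field_simp
      ring
    rwa [e] at this
  have hvS : algebraMap M L P.v ∈ S := by
    have := S.div_mem (S.sub_mem hz0 hz1) hwS
    have e : (cz P w 0 - cz P w 1) / w = algebraMap M L P.v := by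
      rw [div_eq_iff hwne]
      unfold cz qq
      simp only [if_true, if_neg (show (1 : Fin 2) ≠ 0 by decide)]
      field_simp
      ring
    rwa [e] at this
  have h3S : (3 : L) ∈ S := ofNat_mem S 3
  have hxS : algebraMap M L P.x ∈ S := by
    have := S.sub_mem (S.add_mem (S.pow_mem huS 2) (S.mul_mem h3S (S.pow_mem hvS 2)))
      (S.add_mem hx0 hx1)
    have e : (algebraMap M L P.u) ^ 2 + 3 * (algebraMap M L P.v) ^ 2 - (cx P w 0 + cx P w 1)
        = algebraMap M L P.x := by
      unfold cx qq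
      simp only [if_true, if_neg (show (1 : Fin 2) ≠ 0 by decide), map_add, map_sub, map_mul,
        map_pow, map_ofNat]
      field_simp
      ring
    rwa [e] at this
  have hqS : qq P w 0 ∈ S := by
    have := S.sub_mem hx0 hxS
    have e : cx P w 0 - algebraMap M L P.x = qq P w 0 := by
      unfold cx
      ring
    rwa [e] at this
  have hyS : algebraMap M L P.y ∈ S := by
    have := S.sub_mem hy0 (S.mul_mem huS hqS)
    have e : cy P w 0 - algebraMap M L P.u * qq P w 0 = algebraMap M L P.y := by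
      unfold cy
      ring
    rwa [e] at this
  have hzS : algebraMap M L P.z ∈ S := by
    have := S.sub_mem hz0 (S.mul_mem hvS hqS)
    have e : cz P w 0 - algebraMap M L P.v * qq P w 0 = algebraMap M L P.z := by
      unfold cz
      ring
    rwa [e] at this
  exact ⟨hxS, hyS, hzS, huS, hvS, hwS⟩

end

section

variable {M L : Type} [Field M] [Field L] [Algebra ℚ M] [Algebra ℚ L] [Algebra M L]
  [IsScalarTower ℚ M L] (P : Par M) {w : L}

/-- the two generic points of `X₀` -/
noncomputable def powerFieldTwo (hP : P.Good) (hw : w ^ 2 = algebraMap M L P.disc)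
    (hw0 : ∀ m, algebraMap M L m ≠ w)
    (hspan : ∀ l : L, ∃ a b : M, l = algebraMap M L a + algebraMap M L b * w)
    (htop : IntermediateField.adjoin ℚ {P.r1, P.r2, P.g1, P.g2} = ⊤)
    (htr : Algebra.trdeg ℚ M = 4) : X₀.PowerField 2 L where
  pt := fun i => mkpt (cx P w i) (cy P w i) (cz P w i)
  pt_ne_zero := fun _ => mkpt_ne_zero _ _ _
  pt_mem := fun i j => by
    have hcz : CharZero L := charZero_of_injective_algebraMap (algebraMap ℚ L).injective
    exact mkpt_mem (c_cubic P hw two_ne_zero i) (cx_add_one_ne P hw0 two_ne_zero i) j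
  adjoin_eq_top := by
    have hcz : CharZero L := charZero_of_injective_algebraMap (algebraMap ℚ L).injective
    set S := IntermediateField.adjoin ℚ {c : L | ∃ (i : Fin 2) (a b : Fin 5),
      c = mkpt (cx P w i) (cy P w i) (cz P w i) a / mkpt (cx P w i) (cy P w i) (cz P w i) b}
      with hS
    have h1 : ∀ i, cx P w i ∈ S.toSubfield ∧ cy P w i ∈ S.toSubfield ∧
        cz P w i ∈ S.toSubfield := fun i =>
      mem_of_ratios S.toSubfield (cx_add_one_ne P hw0 two_ne_zero i)
        (fun a => IntermediateField.subset_adjoin _ _ ⟨i, a, 0, rfl⟩) two_ne_zero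
    obtain ⟨hx, hy, hz, hu, hv, hwS⟩ := base_mem P hw hw0 two_ne_zero S.toSubfield
      (fun i => (h1 i).1) (fun i => (h1 i).2.1) (fun i => (h1 i).2.2)
    have hinj := (algebraMap M L).injective
    have hne : ∀ m : M, m ≠ 0 → algebraMap M L m ≠ 0 := fun m hm h =>
      hm (hinj (by rw [h, map_zero]))
    have hdd : (P.map (algebraMap M L)).dd = algebraMap M L P.dd := by
      simp only [Par.dd, Par.map, map_add, map_sub, map_mul, map_pow, map_ofNat]
    obtain ⟨g1, g2, g3, g4⟩ := (P.map (algebraMap M L)).mem_all S.toSubfield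
      (by
        have := hne _ hP.hx3
        rwa [map_add, map_pow, map_ofNat] at this)
      (hne _ hP.he2) (hne _ hP.hh) (by rw [hdd]; exact hne _ hP.hd) hx hy hz hu hv
    have hM : ∀ m : M, algebraMap M L m ∈ S := by
      have : IntermediateField.adjoin ℚ {P.r1, P.r2, P.g1, P.g2} ≤
          S.comap (IsScalarTower.toAlgHom ℚ M L) := by
        rw [IntermediateField.adjoin_le_iff]
        rintro m (rfl | rfl | rfl | rfl)
        · exact g1
        · exact g2
        · exact g3
        · exact g4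
      rw [htop] at this
      intro m
      exact this (IntermediateField.mem_top)
    rw [eq_top_iff]
    intro l _
    obtain ⟨a, b, rfl⟩ := hspan l
    exact S.add_mem (hM a) (S.mul_mem (hM b) hwS)
  trdeg_eq := by
    have halg : Algebra.IsAlgebraic M L := by
      constructor
      intro l
      have hwa : IsAlgebraic M w := by
        apply IsAlgebraic.of_pow (n := 2) (by norm_num)
        rw [hw]
        exact isAlgebraic_algebraMap _
      obtain ⟨a, b, rfl⟩ := hspan l
      exact (isAlgebraic_algebraMap a).add ((isAlgebraic_algebraMap b).mul hwa)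
    have h1 := trdeg_add_eq (R := ℚ) (S := M) (A := L)
    rw [trdeg_eq_zero (R := M) (A := L), add_zero, htr] at h1
    rw [← h1]
    norm_num

/-- the action of the symmetric group -/
noncomputable def act (τ : L ≃ₐ[ℚ] L) (hτ2 : ∀ l, τ (τ l) = l) :
    Equiv.Perm (Fin 2) →* (L ≃ₐ[ℚ] L) where
  toFun := fun s => if s = 1 then 1 else τ
  map_one' := by simp
  map_mul' := by
    intro s t
    have hττ : τ * τ = 1 := AlgEquiv.ext hτ2
    by_cases hs : s = 1
    · simp [hs]
    · by_cases ht : t = 1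
      · simp [ht]
      · have hst : s * t = 1 := by
          revert s t
          decide
        rw [if_pos hst, if_neg hs, if_neg ht, hττ]

theorem act_one (τ : L ≃ₐ[ℚ] L) (hτ2 : ∀ l, τ (τ l) = l) : act τ hτ2 1 = 1 := map_one _

theorem act_swap (τ : L ≃ₐ[ℚ] L) (hτ2 : ∀ l, τ (τ l) = l) :
    act τ hτ2 (Equiv.swap 0 1) = τ := by
  show (if Equiv.swap (0 : Fin 2) 1 = 1 then 1 else τ) = τ
  rw [if_neg (by decide)]

theorem map_qq (τ : L ≃ₐ[ℚ] L) (hτw : τ w = -w)
    (hτ : ∀ m, τ (algebraMap M L m) = algebraMap M L m) (i : Fin 2) :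
    τ (qq P w i) = qq P w (Equiv.swap 0 1 i) := by
  unfold qq
  rw [map_div₀, map_add, hτ, map_ofNat]
  fin_cases i
  · simp [hτw]
  · simp [hτw]

theorem map_cx (τ : L ≃ₐ[ℚ] L) (hτw : τ w = -w)
    (hτ : ∀ m, τ (algebraMap M L m) = algebraMap M L m) (i : Fin 2) :
    τ (cx P w i) = cx P w (Equiv.swap 0 1 i) := by
  unfold cx
  rw [map_add, hτ, map_qq P τ hτw hτ]

theorem map_cy (τ : L ≃ₐ[ℚ] L) (hτw : τ w = -w)
    (hτ : ∀ m, τ (algebraMap M L m) = algebraMap M L m) (i : Fin 2) :
    τ (cy P w i) = cy P w (Equiv.swap 0 1 i) := by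
  unfold cy
  rw [map_add, map_mul, hτ, hτ, map_qq P τ hτw hτ]

theorem map_cz (τ : L ≃ₐ[ℚ] L) (hτw : τ w = -w)
    (hτ : ∀ m, τ (algebraMap M L m) = algebraMap M L m) (i : Fin 2) :
    τ (cz P w i) = cz P w (Equiv.swap 0 1 i) := by
  unfold cz
  rw [map_add, map_mul, hτ, hτ, map_qq P τ hτw hτ]

theorem mem_fixedField_iff (τ : L ≃ₐ[ℚ] L) (hτ2 : ∀ l, τ (τ l) = l) (hτw : τ w = -w)
    (hτ : ∀ m, τ (algebraMap M L m) = algebraMap M L m) (hwne : w ≠ 0) (h2 : (2 : L) ≠ 0)
    (hspan : ∀ l : L, ∃ a b : M, l = algebraMap M L a + algebraMap M L b * w) (l : L) :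
    l ∈ IntermediateField.fixedField (act τ hτ2).range ↔ ∃ m : M, algebraMap M L m = l := by
  rw [IntermediateField.mem_fixedField_iff]
  constructor
  · intro h
    have h1 := h τ ⟨Equiv.swap 0 1, act_swap τ hτ2⟩
    obtain ⟨a, b, rfl⟩ := hspan l
    rw [map_add, map_mul, hτ, hτ, hτw] at h1
    have h3 : 2 * (algebraMap M L b * w) = 0 := by linear_combination (-1) * h1
    have h4 := (mul_eq_zero.1 h3).resolve_left h2
    exact ⟨a, by rw [h4, add_zero]⟩
  · rintro ⟨m, rfl⟩ f ⟨s, rfl⟩
    show (if s = 1 then (1 : L ≃ₐ[ℚ] L) else τ) _ = _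
    split_ifs
    · rfl
    · exact hτ m

theorem symRational_of_ext (hP : P.Good) (hw : w ^ 2 = algebraMap M L P.disc)
    (hw0 : ∀ m, algebraMap M L m ≠ w)
    (hspan : ∀ l : L, ∃ a b : M, l = algebraMap M L a + algebraMap M L b * w)
    (htop : IntermediateField.adjoin ℚ {P.r1, P.r2, P.g1, P.g2} = ⊤)
    (htr : Algebra.trdeg ℚ M = 4)
    (τ : L ≃ₐ[ℚ] L) (hτ2 : ∀ l, τ (τ l) = l) (hτw : τ w = -w)
    (hτ : ∀ m, τ (algebraMap M L m) = algebraMap M L m)
    (e : M ≃+* FractionRing (MvPolynomial (Fin 4) ℚ)) : X₀.SymRational 2 := by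
  have hcz : CharZero L := charZero_of_injective_algebraMap (algebraMap ℚ L).injective
  have hwne : w ≠ 0 := fun h => hw0 0 (by rw [map_zero, h])
  refine ⟨L, inferInstance, inferInstance, powerFieldTwo P hP hw hw0 hspan htop htr,
    act τ hτ2, ?_, ?_⟩
  · intro s i a b
    show act τ hτ2 s (mkpt (cx P w i) (cy P w i) (cz P w i) a /
      mkpt (cx P w i) (cy P w i) (cz P w i) b) =
      mkpt (cx P w (s i)) (cy P w (s i)) (cz P w (s i)) a /
      mkpt (cx P w (s i)) (cy P w (s i)) (cz P w (s i)) b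
    by_cases hs : s = 1
    · subst hs
      rw [act_one]
      rfl
    · have hs' : s = Equiv.swap 0 1 := by
        revert s
        decide
      subst hs'
      have hm : ∀ a, τ (mkpt (cx P w i) (cy P w i) (cz P w i) a) =
          mkpt (τ (cx P w i)) (τ (cy P w i)) (τ (cz P w i)) a := fun a =>
        map_mkpt (τ : L →+* L) _ _ _ a
      rw [act_swap, map_div₀, hm, hm, map_cx P τ hτw hτ, map_cy P τ hτw hτ, map_cz P τ hτw hτ]
  · let F := IntermediateField.fixedField (act τ hτ2).range
    have hF : ∀ l, l ∈ F ↔ ∃ m : M, algebraMap M L m = l :=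
      mem_fixedField_iff τ hτ2 hτw hτ hwne two_ne_zero hspan
    let f : M →+* F := (algebraMap M L).codRestrict F.toSubring (fun m => (hF _).2 ⟨m, rfl⟩)
    have hf : Function.Bijective f := by
      constructor
      · intro m m' h
        exact (algebraMap M L).injective (congrArg Subtype.val h)
      · rintro ⟨l, hl⟩
        obtain ⟨m, hm⟩ := (hF l).1 hl
        exact ⟨m, Subtype.ext hm⟩
    exact nonempty_ratAlgEquiv _ _ ((RingEquiv.ofBijective f hf).symm.trans e)

end

end Pool.Agent.H64.SymDP
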